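import Mathlib

/-!
# Resampling a part of the variables of a Gibbs measure on a finite product of compact groups

`mix A ω U` is `U` on the set `A` of indices and `ω` elsewhere, `EC A S ω f` the conditional
expectation of `f` given `ω` off `A` in the Gibbs measure with the density `exp (- S)`.
-/

open MeasureTheory Filter
open scoped Topology

namespace Pool.Agent.Q234.SL

set_option linter.unusedSectionVars false

noncomputable section

variable {ι G : Type*}

open Classical in
/-- `U` on `A` and `ω` elsewhere -/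
def mix (A : ι → Prop) (ω U : ι → G) : ι → G := fun e => if A e then U e else ω e

lemma mix_of {A : ι → Prop} {ω U : ι → G} {e : ι} (h : A e) : mix A ω U e = U e := by
  simp [mix, h]

lemma mix_not {A : ι → Prop} {ω U : ι → G} {e : ι} (h : ¬ A e) : mix A ω U e = ω e := by
  simp [mix, h]

lemma mix_mix (A : ι → Prop) (ω U U' : ι → G) : mix A (mix A ω U) U' = mix A ω U' := by
  funext e
  by_cases h : A e
  · rw [mix_of h, mix_of h]
  · rw [mix_not h, mix_not h, mix_not h]

lemma mix_cont [TopologicalSpace G] (A : ι → Prop) :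
    Continuous fun p : (ι → G) × (ι → G) => mix A p.1 p.2 := by
  refine continuous_pi fun e => ?_
  by_cases h : A e
  · simp only [mix_of h]
    exact (continuous_apply e).comp continuous_snd
  · simp only [mix_not h]
    exact (continuous_apply e).comp continuous_fst

lemma mix_cont' [TopologicalSpace G] (A : ι → Prop) (ω : ι → G) :
    Continuous fun U : ι → G => mix A ω U :=
  (mix_cont A).comp (Continuous.prodMk continuous_const continuous_id)

section

variable [Fintype ι] [TopologicalSpace G] [CompactSpace G] [SecondCountableTopology G]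
  [MeasurableSpace G] [BorelSpace G] (μ : Measure G) [IsProbabilityMeasure μ]

lemma mp_mix (A : ι → Prop) : MeasurePreserving (fun p : (ι → G) × (ι → G) => mix A p.1 p.2)
    ((Measure.pi fun _ => μ).prod (Measure.pi fun _ => μ)) (Measure.pi fun _ => μ) := by
  classical
  have hm : Measurable (fun p : (ι → G) × (ι → G) => mix A p.1 p.2) := by
    refine measurable_pi_lambda _ fun e => ?_
    by_cases h : A e
    · simp only [mix_of h]
      exact (measurable_pi_apply e).comp measurable_snd
    · simp only [mix_not h]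
      exact (measurable_pi_apply e).comp measurable_fst
  refine ⟨hm, ?_⟩
  refine (Measure.pi_eq fun s hs => ?_).symm
  rw [Measure.map_apply hm (MeasurableSet.univ_pi hs)]
  have h1 : (fun p : (ι → G) × (ι → G) => mix A p.1 p.2) ⁻¹' (Set.univ.pi s) =
      (Set.univ.pi fun e => if A e then Set.univ else s e) ×ˢ
        (Set.univ.pi fun e => if A e then s e else Set.univ) := by
    ext p
    simp only [Set.mem_preimage, Set.mem_pi, Set.mem_univ, true_implies, Set.mem_prod]
    constructor
    · intro h
      constructor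
      · intro e
        by_cases hA : A e
        · simp [hA]
        · have := h e
          rw [mix_not hA] at this
          simpa [hA] using this
      · intro e
        by_cases hA : A e
        · have := h e
          rw [mix_of hA] at this
          simpa [hA] using this
        · simp [hA]
    · rintro ⟨h2, h3⟩ e
      by_cases hA : A e
      · rw [mix_of hA]
        simpa [hA] using h3 e
      · rw [mix_not hA]
        simpa [hA] using h2 e
  rw [h1, Measure.prod_prod, Measure.pi_pi, Measure.pi_pi, ← Finset.prod_mul_distrib]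
  refine Finset.prod_congr rfl fun e _ => ?_
  by_cases hA : A e
  · simp [hA]
  · simp [hA]

lemma int_cont {X E : Type*} [TopologicalSpace X] [CompactSpace X] [SecondCountableTopology X]
    [MeasurableSpace X]
    [OpensMeasurableSpace X] [NormedAddCommGroup E] [SecondCountableTopology E]
    (ν : Measure X) [IsFiniteMeasure ν]
    {f : X → E} (hf : Continuous f) : Integrable f ν :=
  hf.integrable_of_hasCompactSupport (HasCompactSupport.of_compactSpace _)

lemma integral_mix (A : ι → Prop) {E : Type*} [NormedAddCommGroup E] [NormedSpace ℝ E]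
    [SecondCountableTopology E] {f : (ι → G) → E} (hf : Continuous f) :
    ∫ ω, ∫ U, f (mix A ω U) ∂(Measure.pi fun _ => μ) ∂(Measure.pi fun _ => μ) =
      ∫ U, f U ∂(Measure.pi fun _ => μ) := by
  have h1 := mp_mix μ A
  have h2 := integral_map (μ := (Measure.pi fun _ : ι => μ).prod (Measure.pi fun _ : ι => μ))
    h1.measurable.aemeasurable (f := f) hf.aestronglyMeasurable
  rw [h1.map_eq] at h2
  rw [h2]
  exact (integral_prod _ (int_cont ((Measure.pi fun _ : ι => μ).prod (Measure.pi fun _ : ι => μ))
      (hf.comp (mix_cont A)))).symm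

/-- partition function given `ω` off `A` -/
def ZA (A : ι → Prop) (S : (ι → G) → ℝ) (ω : ι → G) : ℝ :=
  ∫ U, Real.exp (-(S (mix A ω U))) ∂(Measure.pi fun _ => μ)

/-- numerator -/
def NA (A : ι → Prop) (S : (ι → G) → ℝ) (ω : ι → G) (f : (ι → G) → ℂ) : ℂ :=
  ∫ U, f (mix A ω U) * (Real.exp (-(S (mix A ω U))) : ℂ) ∂(Measure.pi fun _ => μ)

/-- conditional expectation given `ω` off `A` -/
def EC (A : ι → Prop) (S : (ι → G) → ℝ) (ω : ι → G) (f : (ι → G) → ℂ) : ℂ :=
  NA μ A S ω f / (ZA μ A S ω : ℂ)

variable {μ}

lemma exp_cont {S : (ι → G) → ℝ} (hS : Continuous S) : Continuous fun U => Real.exp (-(S U)) :=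
  Real.continuous_exp.comp hS.neg

lemma expC_cont {S : (ι → G) → ℝ} (hS : Continuous S) :
    Continuous fun U => (Real.exp (-(S U)) : ℂ) :=
  Complex.continuous_ofReal.comp (exp_cont hS)

lemma ZA_pos {A : ι → Prop} {S : (ι → G) → ℝ} (hS : Continuous S) (ω : ι → G) :
    0 < ZA μ A S ω := by
  unfold ZA
  exact integral_exp_pos (int_cont _ ((exp_cont hS).comp (mix_cont' A ω)))

lemma ZA_ne {A : ι → Prop} {S : (ι → G) → ℝ} (hS : Continuous S) (ω : ι → G) :
    (ZA μ A S ω : ℂ) ≠ 0 := by
  exact_mod_cast (ZA_pos hS ω).ne'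

lemma par_cont {X Y E : Type*} [TopologicalSpace X] [CompactSpace X] [SecondCountableTopology X]
    [T2Space X]
    [TopologicalSpace Y] [CompactSpace Y] [SecondCountableTopology Y] [MeasurableSpace Y]
    [OpensMeasurableSpace Y] [NormedAddCommGroup E] [NormedSpace ℝ E] [SecondCountableTopology E]
    (ν : Measure Y) [IsFiniteMeasure ν] {f : X → Y → E} (hf : Continuous (Function.uncurry f)) :
    Continuous fun x => ∫ y, f x y ∂ν := by
  have h1 := continuous_parametric_integral_of_continuous (μ := ν) hf (s := Set.univ)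
    isCompact_univ
  simpa using h1

lemma ZA_cont [T2Space G] {A : ι → Prop} {S : (ι → G) → ℝ} (hS : Continuous S) :
    Continuous fun ω => ZA μ A S ω :=
  par_cont _ ((exp_cont hS).comp (mix_cont A))

lemma NA_cont [T2Space G] {A : ι → Prop} {S : (ι → G) → ℝ} (hS : Continuous S)
    {f : (ι → G) → ℂ} (hf : Continuous f) : Continuous fun ω => NA μ A S ω f :=
  par_cont _ ((hf.mul (expC_cont hS)).comp (mix_cont A))

lemma EC_cont [T2Space G] {A : ι → Prop} {S : (ι → G) → ℝ} (hS : Continuous S)
    {f : (ι → G) → ℂ} (hf : Continuous f) : Continuous fun ω => EC μ A S ω f :=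
  (NA_cont hS hf).div (Complex.continuous_ofReal.comp (ZA_cont hS)) fun ω => ZA_ne hS ω

lemma EC_mix {A : ι → Prop} {S : (ι → G) → ℝ} (ω U : ι → G) (f : (ι → G) → ℂ) :
    EC μ A S (mix A ω U) f = EC μ A S ω f := by
  unfold EC NA ZA
  simp only [mix_mix]

/-- the DLR equation -/
lemma dlr [T2Space G] {A : ι → Prop} {S : (ι → G) → ℝ} (hS : Continuous S)
    {f : (ι → G) → ℂ} (hf : Continuous f) :
    ∫ ω, EC μ A S ω f * (Real.exp (-(S ω)) : ℂ) ∂(Measure.pi fun _ => μ) =
      ∫ U, f U * (Real.exp (-(S U)) : ℂ) ∂(Measure.pi fun _ => μ) := by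
  have e1 := integral_mix μ A (f := fun ω => EC μ A S ω f * (Real.exp (-(S ω)) : ℂ))
    ((EC_cont hS hf).mul (expC_cont hS))
  have e2 := integral_mix μ A (f := fun ω => f ω * (Real.exp (-(S ω)) : ℂ))
    (hf.mul (expC_cont hS))
  rw [← e1, ← e2]
  refine integral_congr_ae (Eventually.of_forall fun ω => ?_)
  simp only [EC_mix]
  rw [integral_const_mul, integral_complex_ofReal]
  show EC μ A S ω f * (ZA μ A S ω : ℂ) = NA μ A S ω f
  unfold EC
  rw [div_mul_cancel₀ _ (ZA_ne hS ω)]

/-- change of variables in the conditional expectation -/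
lemma EC_map {A A' : ι → Prop} {S : (ι → G) → ℝ} (hS : Continuous S)
    {f g : (ι → G) → ℂ} (hf : Continuous f) {ω ω' : ι → G}
    {φ : (ι → G) → (ι → G)}
    (hφ : MeasurePreserving φ (Measure.pi fun _ => μ) (Measure.pi fun _ => μ)) (c : ℝ)
    (hc : ∀ U, S (mix A ω (φ U)) = S (mix A' ω' U) + c) (κ : ℂ)
    (hfg : ∀ U, f (mix A ω (φ U)) = κ * g (mix A' ω' U)) :
    EC μ A S ω f = κ * EC μ A' S ω' g := by
  have h1 : NA μ A S ω f = (Real.exp (-c) : ℂ) * (κ * NA μ A' S ω' g) := by
    unfold NA
    have h2 : Continuous fun U => f (mix A ω U) * (Real.exp (-(S (mix A ω U))) : ℂ) :=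
      (hf.mul (expC_cont hS)).comp (mix_cont' A ω)
    have h3 := integral_map (μ := Measure.pi fun _ : ι => μ) hφ.measurable.aemeasurable
      (f := fun U => f (mix A ω U) * (Real.exp (-(S (mix A ω U))) : ℂ)) h2.aestronglyMeasurable
    rw [hφ.map_eq] at h3
    rw [h3, ← integral_const_mul, ← integral_const_mul]
    refine integral_congr_ae (Eventually.of_forall fun U => ?_)
    simp only
    rw [hc, hfg, neg_add, Real.exp_add]
    push_cast
    ring
  have h2 : ZA μ A S ω = Real.exp (-c) * ZA μ A' S ω' := by
    unfold ZA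
    have h2 : Continuous fun U => Real.exp (-(S (mix A ω U))) :=
      (exp_cont hS).comp (mix_cont' A ω)
    have h3 := integral_map (μ := Measure.pi fun _ : ι => μ) hφ.measurable.aemeasurable
      (f := fun U => Real.exp (-(S (mix A ω U)))) h2.aestronglyMeasurable
    rw [hφ.map_eq] at h3
    rw [h3, ← integral_const_mul]
    refine integral_congr_ae (Eventually.of_forall fun U => ?_)
    simp only
    rw [hc, neg_add, Real.exp_add]
    ring
  unfold EC
  rw [h1, h2]
  have h3 : (Real.exp (-c) : ℂ) ≠ 0 := by exact_mod_cast (Real.exp_pos _).ne'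
  have h4 := ZA_ne (μ := μ) (A := A') hS ω'
  push_cast at *
  field_simp

lemma EC_sum {A : ι → Prop} {S : (ι → G) → ℝ} (hS : Continuous S) {σ : Type*} (s : Finset σ)
    {ω : ι → G} {F : (ι → G) → ℂ} {f : σ → (ι → G) → ℂ} (hf : ∀ a, Continuous (f a)) (c : σ → ℂ)
    (hF : ∀ U, F (mix A ω U) = ∑ a ∈ s, c a * f a (mix A ω U)) :
    EC μ A S ω F = ∑ a ∈ s, c a * EC μ A S ω (f a) := by
  unfold EC NA
  have h1 : (fun U => F (mix A ω U) * (Real.exp (-(S (mix A ω U))) : ℂ)) =
      fun U => ∑ a ∈ s, c a * (f a (mix A ω U) * (Real.exp (-(S (mix A ω U))) : ℂ)) := by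
    funext U
    rw [hF, Finset.sum_mul]
    refine Finset.sum_congr rfl fun a _ => by ring
  rw [h1, integral_finsetSum, Finset.sum_div]
  · refine Finset.sum_congr rfl fun a _ => ?_
    rw [integral_const_mul]
    ring
  · intro a _
    exact int_cont _ (continuous_const.mul (((hf a).mul (expC_cont hS)).comp (mix_cont' A ω)))

/-- reindexing the variables -/
lemma mp_perm (σ : ι ≃ ι) : MeasurePreserving (fun U : ι → G => fun e => U (σ e))
    (Measure.pi fun _ => μ) (Measure.pi fun _ => μ) := by
  have hm : Measurable (fun U : ι → G => fun e => U (σ e)) :=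
    measurable_pi_lambda _ fun e => measurable_pi_apply _
  refine ⟨hm, ?_⟩
  refine (Measure.pi_eq fun s hs => ?_).symm
  rw [Measure.map_apply hm (MeasurableSet.univ_pi hs)]
  have h1 : (fun U : ι → G => fun e => U (σ e)) ⁻¹' (Set.univ.pi s) =
      Set.univ.pi fun e => s (σ.symm e) := by
    ext U
    simp only [Set.mem_preimage, Set.mem_pi, Set.mem_univ, true_implies]
    constructor
    · intro h e
      simpa using h (σ.symm e)
    · intro h e
      simpa using h (σ e)
  rw [h1, Measure.pi_pi]
  exact Equiv.prod_comp σ.symm fun e => μ (s e)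

end

end

end Pool.Agent.Q234.SL
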