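import Mathlib
import Pool.Agent.Q234.SL.Mix

/-!
# Slabs of the periodic lattice: resampling of the links inside a slab

Geometry of the slabs `k ℓ ≤ x_i ≤ (k + 1) ℓ` of the periodic lattice, locality of the Wilson
action, translations, central twists.
-/

open MeasureTheory Filter Matrix
open scoped Topology

namespace Pool.Agent.Q234.SL

set_option linter.unusedSectionVars false

noncomputable section

/-- Complex `N × N` matrices. -/
abbrev Mt (N : ℕ) := Matrix (Fin N) (Fin N) ℂ

/-- The unitary group `U(N)`. -/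
abbrev UU (N : ℕ) := Matrix.unitaryGroup (Fin N) ℂ

/-- The matrix of an element of a subgroup of `U(N)`. -/
def mt {N : ℕ} {G : Subgroup (UU N)} (g : G) : Mt N := ((g : UU N) : Mt N)

/-- Links of the periodic lattice `(ℤ/l)^d`: base point and direction. -/
abbrev Link (d l : ℕ) := (Fin d → ZMod l) × Fin d

/-- Links of the lattice `ℤ^d`: base point and direction. -/
abbrev LinkZ (d : ℕ) := (Fin d → ℤ) × Fin d

variable {N d l : ℕ} {G : Subgroup (UU N)}

/-- The product of the link variables around the plaquette at `x` in the directions `i`, `j`. -/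
def plaq (U : Link d l → G) (x : Fin d → ZMod l) (i j : Fin d) : G :=
  U (x, i) * U (x + Pi.single i 1, j) * (U (x + Pi.single j 1, i))⁻¹ * (U (x, j))⁻¹

/-- The Wilson action `∑_p Re tr (1 - U_p)`, the sum over the plaquettes. -/
def action [NeZero l] (U : Link d l → G) : ℝ :=
  ∑ x : Fin d → ZMod l, ∑ i : Fin d, ∑ j : Fin d,
    if i < j then (trace (1 - mt (plaq U x i j))).re else 0

/-- The periodic extension of a configuration. -/
def per (U : Link d l → G) : LinkZ d → G := fun e => U (fun i => (e.1 i : ZMod l), e.2)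

/-- The product of the link variables along the path of `k` steps in the direction `i` from `x`. -/
def line (V : LinkZ d → G) (i : Fin d) : ℕ → (Fin d → ℤ) → G
  | 0, _ => 1
  | k + 1, x => V (x, i) * line V i k (x + Pi.single i 1)

/-- The links strictly inside the slab `0 ≤ x_i ≤ ℓ`. -/
def Ins (i : Fin d) (ℓ : ℕ) (e : Link d l) : Prop :=
  (e.1 i).val < ℓ ∧ (e.2 = i ∨ 0 < (e.1 i).val)

/-- The links strictly inside the slab `k ℓ ≤ x_i ≤ (k + 1) ℓ`. -/
def InsK (i : Fin d) (ℓ k : ℕ) (e : Link d l) : Prop :=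
  Ins i ℓ (e.1 + Pi.single i (-((k * ℓ : ℕ) : ZMod l)), e.2)

/-- translation -/
def trn (v : Fin d → ZMod l) (U : Link d l → G) : Link d l → G := fun e => U (e.1 + v, e.2)

/-- `f` does not depend on the links with `x_i < c` -/
def DepG {α : Type*} (i : Fin d) (c : ℕ) (f : (Link d l → G) → α) : Prop :=
  ∀ ω ω' : Link d l → G, (∀ e : Link d l, c ≤ (e.1 i).val → ω e = ω' e) → f ω = f ω'

/-! ### Lines -/

lemma line_add (V : LinkZ d → G) (i : Fin d) (a b : ℕ) (x : Fin d → ℤ) :
    line V i (a + b) x = line V i a x * line V i b (x + Pi.single i (a : ℤ)) := by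
  induction a generalizing x with
  | zero => simp [line]
  | succ a ih =>
    rw [Nat.succ_add]
    show V (x, i) * line V i (a + b) (x + Pi.single i 1) =
      V (x, i) * line V i a (x + Pi.single i 1) * _
    rw [ih, mul_assoc]
    congr 3
    rw [add_assoc, ← Pi.single_add]
    push_cast
    rw [add_comm (1 : ℤ)]

lemma line_congr (V V' : LinkZ d → G) (i : Fin d) (r : ℕ) (x : Fin d → ℤ)
    (h : ∀ s : ℕ, s < r → V (x + Pi.single i (s : ℤ), i) = V' (x + Pi.single i (s : ℤ), i)) :
    line V i r x = line V' i r x := by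
  induction r generalizing x with
  | zero => rfl
  | succ r ih =>
    show V (x, i) * line V i r (x + Pi.single i 1) = V' (x, i) * line V' i r (x + Pi.single i 1)
    have h0 := h 0 (by omega)
    rw [Nat.cast_zero, Pi.single_zero, add_zero] at h0
    rw [h0, ih]
    intro s hs
    have h1 := h (s + 1) (by omega)
    rw [add_assoc, ← Pi.single_add, add_comm (1 : ℤ)]
    push_cast at h1
    exact h1

lemma line_cont (i : Fin d) (k : ℕ) (x : Fin d → ℤ) :
    Continuous fun V : LinkZ d → G => line V i k x := by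
  induction k generalizing x with
  | zero => exact continuous_const
  | succ k ih => exact (continuous_apply _).mul (ih _)

lemma per_cont : Continuous (per : (Link d l → G) → LinkZ d → G) :=
  continuous_pi fun _ => continuous_apply _

lemma line_trn (v : Fin d → ℤ) (U : Link d l → G) (i : Fin d) (k : ℕ) (x : Fin d → ℤ) :
    line (per (trn (fun a => (v a : ZMod l)) U)) i k x = line (per U) i k (x + v) := by
  induction k generalizing x with
  | zero => rfl
  | succ k ih =>
    show per _ (x, i) * line _ i k (x + Pi.single i 1) =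
      per _ (x + v, i) * line _ i k (x + v + Pi.single i 1)
    rw [ih, add_right_comm]
    congr 1
    unfold per trn
    simp only
    congr 2
    funext a
    simp

/-! ### Positions -/

lemma val_cast_lt [NeZero l] {c : ℕ} (h : c < l) : ((c : ℕ) : ZMod l).val = c :=
  ZMod.val_cast_of_lt h

lemma insK_iff [NeZero l] {i : Fin d} {ℓ k : ℕ} (hk : (k + 1) * ℓ ≤ l) (hℓ : 1 ≤ ℓ)
    (e : Link d l) : InsK i ℓ k e ↔
      k * ℓ ≤ (e.1 i).val ∧ (e.1 i).val < (k + 1) * ℓ ∧ (e.2 = i ∨ k * ℓ < (e.1 i).val) := by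
  have hkl : k * ℓ < l := by nlinarith
  have hv : ((k * ℓ : ℕ) : ZMod l).val = k * ℓ := val_cast_lt hkl
  unfold InsK Ins
  simp only [Pi.add_apply, Pi.single_eq_same]
  rw [← sub_eq_add_neg]
  obtain ⟨a, ha⟩ : ∃ a, a = e.1 i := ⟨_, rfl⟩
  rw [← ha]
  have hal : a.val < l := ZMod.val_lt a
  rcases le_or_gt (k * ℓ) a.val with h | h
  · rw [ZMod.val_sub (by rw [hv]; exact h), hv]
    have e1 : (k + 1) * ℓ = k * ℓ + ℓ := by ring
    rw [e1]
    omega
  · have h1 : (((k * ℓ : ℕ) : ZMod l) - a).val = k * ℓ - a.val := by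
      rw [ZMod.val_sub (by rw [hv]; exact h.le), hv]
    have h2 : (a - ((k * ℓ : ℕ) : ZMod l)).val = l - (k * ℓ - a.val) := by
      rw [← neg_sub, ZMod.neg_val, h1, if_neg]
      intro h3
      rw [h3, ZMod.val_zero] at h1
      omega
    rw [h2]
    have e1 : (k + 1) * ℓ = k * ℓ + ℓ := by ring
    rw [e1] at hk ⊢
    omega

/-! ### Locality of the action -/

lemma val_add_one [NeZero l] (a : ZMod l) (h : a.val + 1 < l) : (a + 1).val = a.val + 1 := by
  have h1 : (1 : ZMod l).val = 1 := ZMod.val_one'' (by omega)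
  rw [ZMod.val_add_of_lt (by rw [h1]; exact h), h1]

lemma val_add_one' [NeZero l] (a : ZMod l) (h : 1 ≤ (a + 1).val) (_hl : 1 < l) :
    (a + 1).val = a.val + 1 := by
  by_cases h2 : a.val + 1 < l
  · exact val_add_one a h2
  · exfalso
    have h3 : a.val < l := ZMod.val_lt a
    have h4 : a.val + 1 = l := by omega
    have h5 : a + 1 = 0 := by
      have : ((a.val + 1 : ℕ) : ZMod l) = 0 := by rw [h4]; simp
      push_cast at this
      rwa [ZMod.natCast_zmod_val] at this
    rw [h5, ZMod.val_zero] at h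
    omega

/-- the four links of a plaquette -/
def pls (x : Fin d → ZMod l) (a b : Fin d) (q : Fin 4) : Link d l :=
  match q with
  | 0 => (x, a)
  | 1 => (x + Pi.single a 1, b)
  | 2 => (x + Pi.single b 1, a)
  | 3 => (x, b)

lemma plaq_pls (U : Link d l → G) (x : Fin d → ZMod l) (a b : Fin d) :
    plaq U x a b = U (pls x a b 0) * U (pls x a b 1) * (U (pls x a b 2))⁻¹ *
      (U (pls x a b 3))⁻¹ := rfl

lemma touch [NeZero l] {i : Fin d} {ℓ k : ℕ} (hk : (k + 1) * ℓ < l) (hℓ : 1 ≤ ℓ)
    (x : Fin d → ZMod l) {a b : Fin d} (hab : a ≠ b) (q : Fin 4) (h : InsK i ℓ k (pls x a b q))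
    (q' : Fin 4) : k * ℓ ≤ ((pls x a b q').1 i).val := by
  have hl1 : 1 < l := by nlinarith
  rw [insK_iff hk.le hℓ] at h
  have hm : ∀ c : Fin d, c ≠ i → (x + Pi.single c 1 : Fin d → ZMod l) i = x i := by
    intro c hc
    rw [Pi.add_apply, Pi.single_eq_of_ne (Ne.symm hc), add_zero]
  have hp : (x + Pi.single i 1 : Fin d → ZMod l) i = x i + 1 := by
    rw [Pi.add_apply, Pi.single_eq_same]
  obtain ⟨ξ, hξ⟩ : ∃ ξ, ξ = x i := ⟨_, rfl⟩
  by_cases ha : a = i
  · have hb : b ≠ i := fun hb => hab (ha.trans hb.symm)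
    have h0 : (pls x a b 0).1 i = ξ := hξ.symm
    have h1 : (pls x a b 1).1 i = ξ + 1 := by
      show (x + Pi.single a 1 : Fin d → ZMod l) i = _; rw [ha, hp, hξ]
    have h2 : (pls x a b 2).1 i = ξ := by
      show (x + Pi.single b 1 : Fin d → ZMod l) i = _; rw [hm b hb, hξ]
    have h3 : (pls x a b 3).1 i = ξ := hξ.symm
    have hξ2 : k * ℓ ≤ ξ.val ∧ ξ.val < (k + 1) * ℓ := by
      fin_cases q
      · have h' := h; simp only [Fin.zero_eta] at h'
        rw [h0] at h'; exact ⟨h'.1, h'.2.1⟩
      · have h' := h; simp only [Fin.mk_one] at h'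
        rw [h1] at h'
        have hb' : (pls x a b 1).2 = b := rfl
        rw [hb'] at h'
        have h4 : k * ℓ < (ξ + 1).val := h'.2.2.resolve_left hb
        rw [val_add_one' ξ (by omega) hl1] at h' h4
        omega
      · have h' := h; simp only [Fin.reduceFinMk] at h'
        rw [h2] at h'; exact ⟨h'.1, h'.2.1⟩
      · have h' := h; simp only [Fin.reduceFinMk] at h'
        rw [h3] at h'; exact ⟨h'.1, h'.2.1⟩
    have hξ3 : (ξ + 1).val = ξ.val + 1 := val_add_one ξ (by omega)
    fin_cases q'
    · simp only [Fin.zero_eta]; rw [h0]; exact hξ2.1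
    · simp only [Fin.mk_one]; rw [h1, hξ3]; omega
    · simp only [Fin.reduceFinMk]; rw [h2]; exact hξ2.1
    · simp only [Fin.reduceFinMk]; rw [h3]; exact hξ2.1
  · by_cases hb : b = i
    · have h0 : (pls x a b 0).1 i = ξ := hξ.symm
      have h1 : (pls x a b 1).1 i = ξ := by
        show (x + Pi.single a 1 : Fin d → ZMod l) i = _; rw [hm a ha, hξ]
      have h2 : (pls x a b 2).1 i = ξ + 1 := by
        show (x + Pi.single b 1 : Fin d → ZMod l) i = _; rw [hb, hp, hξ]
      have h3 : (pls x a b 3).1 i = ξ := hξ.symm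
      have hξ2 : k * ℓ ≤ ξ.val ∧ ξ.val < (k + 1) * ℓ := by
        fin_cases q
        · have h' := h; simp only [Fin.zero_eta] at h'
          rw [h0] at h'; exact ⟨h'.1, h'.2.1⟩
        · have h' := h; simp only [Fin.mk_one] at h'
          rw [h1] at h'; exact ⟨h'.1, h'.2.1⟩
        · have h' := h; simp only [Fin.reduceFinMk] at h'
          rw [h2] at h'
          have hb' : (pls x a b 2).2 = a := rfl
          rw [hb'] at h'
          have h4 : k * ℓ < (ξ + 1).val := h'.2.2.resolve_left ha
          rw [val_add_one' ξ (by omega) hl1] at h' h4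
          omega
        · have h' := h; simp only [Fin.reduceFinMk] at h'
          rw [h3] at h'; exact ⟨h'.1, h'.2.1⟩
      have hξ3 : (ξ + 1).val = ξ.val + 1 := val_add_one ξ (by omega)
      fin_cases q'
      · simp only [Fin.zero_eta]; rw [h0]; exact hξ2.1
      · simp only [Fin.mk_one]; rw [h1]; exact hξ2.1
      · simp only [Fin.reduceFinMk]; rw [h2, hξ3]; omega
      · simp only [Fin.reduceFinMk]; rw [h3]; exact hξ2.1
    · have hall : ∀ q : Fin 4, (pls x a b q).1 i = ξ := by
        intro q
        fin_cases q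
        · exact hξ.symm
        · show (x + Pi.single a 1 : Fin d → ZMod l) i = _; rw [hm a ha, hξ]
        · show (x + Pi.single b 1 : Fin d → ZMod l) i = _; rw [hm b hb, hξ]
        · exact hξ.symm
      rw [hall] at h ⊢
      exact h.1

lemma action_loc [NeZero l] {i : Fin d} {ℓ k : ℕ} (hk : (k + 1) * ℓ < l) (hℓ : 1 ≤ ℓ)
    {ω ω' : Link d l → G} (h : ∀ e : Link d l, k * ℓ ≤ (e.1 i).val → ω e = ω' e)
    (U : Link d l → G) :
    action (mix (InsK i ℓ k) ω U) = action (mix (InsK i ℓ k) ω' U) + (action ω - action ω') := by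
  have key : ∀ (x : Fin d → ZMod l) (a b : Fin d), a < b →
      (trace (1 - mt (plaq (mix (InsK i ℓ k) ω U) x a b))).re =
      (trace (1 - mt (plaq (mix (InsK i ℓ k) ω' U) x a b))).re +
      ((trace (1 - mt (plaq ω x a b))).re - (trace (1 - mt (plaq ω' x a b))).re) := by
    intro x a b hab
    by_cases ht : ∃ q : Fin 4, InsK i ℓ k (pls x a b q)
    · obtain ⟨q, hq⟩ := ht
      have hloc := touch hk hℓ x hab.ne q hq
      have e1 : plaq ω x a b = plaq ω' x a b := by
        rw [plaq_pls, plaq_pls, h _ (hloc 0), h _ (hloc 1), h _ (hloc 2), h _ (hloc 3)]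
      have h2 : ∀ q', mix (InsK i ℓ k) ω U (pls x a b q') =
          mix (InsK i ℓ k) ω' U (pls x a b q') := by
        intro q'
        by_cases hq' : InsK i ℓ k (pls x a b q')
        · rw [mix_of hq', mix_of hq']
        · rw [mix_not hq', mix_not hq', h _ (hloc q')]
      have e2 : plaq (mix (InsK i ℓ k) ω U) x a b = plaq (mix (InsK i ℓ k) ω' U) x a b := by
        rw [plaq_pls, plaq_pls, h2, h2, h2, h2]
      rw [e1, e2]
      ring
    · push Not at ht
      have e1 : ∀ ω : Link d l → G, plaq (mix (InsK i ℓ k) ω U) x a b = plaq ω x a b := by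
        intro ω
        rw [plaq_pls, plaq_pls, mix_not (ht 0), mix_not (ht 1), mix_not (ht 2), mix_not (ht 3)]
      rw [e1, e1]
      ring
  unfold action
  rw [← Finset.sum_sub_distrib, ← Finset.sum_add_distrib]
  refine Finset.sum_congr rfl fun x _ => ?_
  rw [← Finset.sum_sub_distrib, ← Finset.sum_add_distrib]
  refine Finset.sum_congr rfl fun a _ => ?_
  rw [← Finset.sum_sub_distrib, ← Finset.sum_add_distrib]
  refine Finset.sum_congr rfl fun b _ => ?_
  by_cases hab : a < b
  · rw [if_pos hab, if_pos hab, if_pos hab, if_pos hab]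
    exact key x a b hab
  · rw [if_neg hab, if_neg hab, if_neg hab, if_neg hab]
    ring

/-! ### Translations -/

lemma plaq_trn (v : Fin d → ZMod l) (U : Link d l → G) (x : Fin d → ZMod l) (a b : Fin d) :
    plaq (trn v U) x a b = plaq U (x + v) a b := by
  unfold plaq trn
  simp only
  rw [add_right_comm x (Pi.single a 1), add_right_comm x (Pi.single b 1)]

lemma action_trn [NeZero l] (v : Fin d → ZMod l) (U : Link d l → G) :
    action (trn v U) = action U := by
  unfold action
  refine Fintype.sum_equiv (Equiv.addRight v) _ _ fun x => ?_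
  refine Finset.sum_congr rfl fun a _ => Finset.sum_congr rfl fun b _ => ?_
  rw [plaq_trn]
  rfl

/-- the permutation of the links -/
def sig (v : Fin d → ZMod l) : Link d l ≃ Link d l where
  toFun e := (e.1 + v, e.2)
  invFun e := (e.1 - v, e.2)
  left_inv e := by simp
  right_inv e := by simp

/-! ### Central twists -/

open Classical in
/-- multiplication of the links crossing from `x_i = 0` to `x_i = 1` by `z` -/
def twist (i : Fin d) (z : G) (U : Link d l → G) : Link d l → G :=
  fun e => if e.2 = i ∧ e.1 i = 0 then z * U e else U e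

lemma twist_of {i : Fin d} {z : G} {U : Link d l → G} {x : Fin d → ZMod l} (h : x i = 0) :
    twist i z U (x, i) = z * U (x, i) := by
  unfold twist; rw [if_pos ⟨rfl, h⟩]

lemma twist_ne {i : Fin d} {z : G} {U : Link d l → G} {x : Fin d → ZMod l} (h : x i ≠ 0)
    (a : Fin d) : twist i z U (x, a) = U (x, a) := by
  unfold twist; rw [if_neg (fun h' => h h'.2)]

lemma twist_dir {i : Fin d} {z : G} {U : Link d l → G} {x : Fin d → ZMod l} {a : Fin d}
    (h : a ≠ i) : twist i z U (x, a) = U (x, a) := by
  unfold twist; rw [if_neg (fun h' => h h'.1)]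

lemma plaq_twist {i : Fin d} {z : G} (hz : ∀ g : G, z * g = g * z) (U : Link d l → G)
    (x : Fin d → ZMod l) {a b : Fin d} (hab : a ≠ b) :
    plaq (twist i z U) x a b = plaq U x a b := by
  have hz' : ∀ g : G, g⁻¹ * z⁻¹ = z⁻¹ * g⁻¹ := fun g => by
    rw [← _root_.mul_inv_rev, ← _root_.mul_inv_rev, hz]
  have hm : ∀ c : Fin d, c ≠ i → (x + Pi.single c 1 : Fin d → ZMod l) i = x i := by
    intro c hc
    rw [Pi.add_apply, Pi.single_eq_of_ne (Ne.symm hc), add_zero]
  unfold plaq
  by_cases h0 : x i = 0
  · by_cases ha : a = i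
    · subst ha
      rw [twist_of h0, twist_dir hab.symm, twist_of (by rw [hm b hab.symm, h0]),
        twist_dir hab.symm, _root_.mul_inv_rev, hz']
      have : ∀ p q r s : G, z * p * q * (z⁻¹ * r) * s = p * q * r * s := by
        intro p q r s
        rw [hz p, mul_assoc p z q, hz q]
        group
      exact this _ _ _ _
    · by_cases hb : b = i
      · subst hb
        rw [twist_dir ha, twist_of (by rw [hm a ha, h0]), twist_dir ha, twist_of h0, _root_.mul_inv_rev,
          hz']
        have : ∀ p q r s : G, p * (z * q) * r * (z⁻¹ * s) = p * q * r * s := by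
          intro p q r s
          rw [hz q, mul_assoc p, mul_assoc q z r, hz r]
          group
        exact this _ _ _ _
      · rw [twist_dir ha, twist_dir hb, twist_dir ha, twist_dir hb]
  · by_cases ha : a = i
    · subst ha
      rw [twist_ne h0, twist_dir hab.symm, twist_ne (by rw [hm b hab.symm]; exact h0),
        twist_dir hab.symm]
    · by_cases hb : b = i
      · subst hb
        rw [twist_dir ha, twist_ne (by rw [hm a ha]; exact h0), twist_dir ha, twist_ne h0]
      · rw [twist_dir ha, twist_dir hb, twist_dir ha, twist_dir hb]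

lemma action_twist [NeZero l] {i : Fin d} {z : G} (hz : ∀ g : G, z * g = g * z)
    (U : Link d l → G) : action (twist i z U) = action U := by
  unfold action
  refine Finset.sum_congr rfl fun x _ => Finset.sum_congr rfl fun a _ =>
    Finset.sum_congr rfl fun b _ => ?_
  by_cases hab : a < b
  · rw [if_pos hab, if_pos hab, plaq_twist hz U x hab.ne]
  · rw [if_neg hab, if_neg hab]

lemma mix_twist [NeZero l] {i : Fin d} {ℓ : ℕ} (hℓ : 1 ≤ ℓ) (z : G) (ω U : Link d l → G) :
    mix (Ins i ℓ) ω (twist i z U) = twist i z (mix (Ins i ℓ) ω U) := by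
  funext e
  obtain ⟨x, a⟩ := e
  by_cases h : a = i ∧ x i = 0
  · obtain ⟨rfl, h0⟩ := h
    have hI : Ins a ℓ ((x, a) : Link d l) := by
      refine ⟨?_, Or.inl rfl⟩
      show (x a).val < ℓ
      rw [h0, ZMod.val_zero]
      omega
    rw [mix_of hI, twist_of h0, twist_of h0, mix_of hI]
  · have ht : ∀ W : Link d l → G, twist i z W (x, a) = W (x, a) := by
      intro W
      unfold twist; rw [if_neg h]
    rw [ht]
    by_cases hI : Ins i ℓ ((x, a) : Link d l)
    · rw [mix_of hI, mix_of hI, ht]
    · rw [mix_not hI, mix_not hI]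

lemma line_twist [NeZero l] {i : Fin d} {ℓ : ℕ} (hℓ : 1 ≤ ℓ) (hl : ℓ ≤ l) (z : G)
    (U : Link d l → G) :
    line (per (twist i z U)) i ℓ 0 = z * line (per U) i ℓ 0 := by
  obtain ⟨m, rfl⟩ : ∃ m, ℓ = m + 1 := ⟨ℓ - 1, by omega⟩
  show per (twist i z U) (0, i) * line (per (twist i z U)) i m (0 + Pi.single i 1) =
    z * (per U (0, i) * line (per U) i m (0 + Pi.single i 1))
  have h0 : per (twist i z U) (0, i) = z * per U (0, i) := by
    unfold per
    simp only
    rw [twist_of]
    simp
  rw [h0, mul_assoc]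
  congr 2
  refine line_congr _ _ _ _ _ fun s hs => ?_
  unfold per
  simp only
  rw [twist_ne]
  simp only [Pi.add_apply, Pi.single_eq_same, zero_add]
  intro h
  have h1 : (((1 + s : ℕ) : ZMod l)).val = 1 + s := val_cast_lt (by omega)
  have h2 : ((1 + s : ℕ) : ZMod l) = 0 := by
    push_cast
    push_cast at h
    exact h
  rw [h2, ZMod.val_zero] at h1
  omega

end

end Pool.Agent.Q234.SL
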