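import Mathlib
import Pool.Agent.Q234.SL.Slab

/-!
# From the decay of correlations in slabs to the area law, in finite volume
-/

open MeasureTheory Filter Matrix
open scoped Topology

namespace Pool.Agent.Q234.SL

set_option linter.unusedSectionVars false

noncomputable section

variable {N d l : ℕ} {G : Subgroup (UU N)}

/-- The product of the link variables around the rectangle. -/
def loop (V : LinkZ d → G) (x : Fin d → ℤ) (i j : Fin d) (R T : ℕ) : G :=
  line V i R x * line V j T (x + Pi.single i (R : ℤ)) *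
    (line V i R (x + Pi.single j (T : ℤ)))⁻¹ * (line V j T x)⁻¹

lemma mt_mul (g h : G) : mt (g * h) = mt g * mt h := rfl

lemma mt_one : mt (1 : G) = 1 := rfl

lemma mt_inv (g : G) : mt (g⁻¹) = (mt g)ᴴ := rfl

lemma mt_entry (g : G) (a b : Fin N) : ‖mt g a b‖ ≤ 1 :=
  entry_norm_bound_of_unitary (g : UU N).2 a b

lemma mt_cont : Continuous (mt : G → Mt N) :=
  continuous_subtype_val.comp continuous_subtype_val

lemma action_cont [NeZero l] : Continuous (action : (Link d l → G) → ℝ) := by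
  unfold action
  refine continuous_finsetSum _ fun x _ => continuous_finsetSum _ fun a _ =>
    continuous_finsetSum _ fun b _ => ?_
  by_cases h : a < b
  · simp only [if_pos h]
    have h1 : Continuous fun U : Link d l → G => plaq U x a b := by
      unfold plaq
      fun_prop
    exact Complex.continuous_re.comp
      ((continuous_const.sub (mt_cont.comp h1)).matrix_trace)
  · simp only [if_neg h]
    exact continuous_const

lemma Sc [NeZero l] (β : ℝ) : Continuous fun U : Link d l → G => β * action U :=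
  continuous_const.mul action_cont

lemma lineU_cont (i : Fin d) (k : ℕ) (x : Fin d → ℤ) :
    Continuous fun U : Link d l → G => mt (line (per U) i k x) :=
  mt_cont.comp ((line_cont i k x).comp per_cont)

lemma entry_cont {X : Type*} [TopologicalSpace X] {M : X → Mt N} (hM : Continuous M)
    (a b : Fin N) : Continuous fun x => M x a b :=
  hM.matrix_elem a b

/-- the product of the entries of the crossing lines at heights `0` and `T` of the slab `k` -/
def gg (i j : Fin d) (ℓ T k : ℕ) (a b c e : Fin N) (V : Link d l → G) : ℂ :=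
  mt (line (per V) i ℓ (Pi.single i ((k * ℓ : ℕ) : ℤ))) a b *
    star (mt (line (per V) i ℓ (Pi.single i ((k * ℓ : ℕ) : ℤ) + Pi.single j (T : ℤ))) e c)

lemma gg_cont (i j : Fin d) (ℓ T k : ℕ) (a b c e : Fin N) :
    Continuous (gg i j ℓ T k a b c e : (Link d l → G) → ℂ) :=
  (entry_cont (lineU_cont _ _ _) _ _).mul (entry_cont (lineU_cont _ _ _) _ _).star

lemma line_dep [NeZero l] {i : Fin d} {ω ω' : Link d l → G} {c r : ℕ} (hr : c + r ≤ l)
    (y : Fin d → ℤ) (hy : y i = c) (P : ℕ → Prop) (hP : ∀ s, s < r → P (c + s))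
    (h : ∀ e : Link d l, e.2 = i → P (e.1 i).val → ω e = ω' e) :
    line (per ω) i r y = line (per ω') i r y := by
  refine line_congr _ _ _ _ _ fun s hs => ?_
  unfold per
  refine h _ rfl ?_
  have h1 : (((c + s : ℕ) : ZMod l)).val = c + s := val_cast_lt (by omega)
  have h2 : (((y + Pi.single i (s : ℤ) : Fin d → ℤ) i : ℤ) : ZMod l) = ((c + s : ℕ) : ZMod l) := by
    rw [Pi.add_apply, Pi.single_eq_same, hy]
    push_cast
    rfl
  simp only
  rw [h2, h1]
  exact hP s hs

lemma line_dep' [NeZero l] {i j : Fin d} (hij : j ≠ i) {ω ω' : Link d l → G} {c : ℕ}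
    (hc : c < l) (r : ℕ) (y : Fin d → ℤ) (hy : y i = c)
    (h : ∀ e : Link d l, e.2 = j → (e.1 i).val = c → ω e = ω' e) :
    line (per ω) j r y = line (per ω') j r y := by
  refine line_congr _ _ _ _ _ fun s hs => ?_
  unfold per
  refine h _ rfl ?_
  have h1 : (((c : ℕ) : ZMod l)).val = c := val_cast_lt hc
  have h2 : (((y + Pi.single j (s : ℤ) : Fin d → ℤ) i : ℤ) : ZMod l) = ((c : ℕ) : ZMod l) := by
    rw [Pi.add_apply, Pi.single_eq_of_ne (Ne.symm hij), hy]
    push_cast
    simp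
  simp only
  rw [h2, h1]

section

variable [CompactSpace G] [SecondCountableTopology G]
  [MeasurableSpace G] [BorelSpace G] (μ : Measure G) [IsProbabilityMeasure μ]

/-- the bound for the slab `k` from that for the slab `0` -/
lemma slab_k [NeZero l] {β : ℝ} {i j : Fin d} {ℓ T : ℕ} {δ : ℝ}
    (hδ : ∀ (ω : Link d l → G) (a b c e : Fin N),
      ‖EC μ (Ins i ℓ) (fun U => β * action U) ω (fun V => mt (line (per V) i ℓ 0) a b *
        star (mt (line (per V) i ℓ (Pi.single j (T : ℤ))) e c))‖ ≤ δ)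
    (k : ℕ) (ω : Link d l → G) (a b c e : Fin N) :
    ‖EC μ (InsK i ℓ k) (fun U => β * action U) ω (gg i j ℓ T k a b c e)‖ ≤ δ := by
  obtain ⟨v, hv⟩ : ∃ v : Fin d → ℤ, v = Pi.single i ((k * ℓ : ℕ) : ℤ) := ⟨_, rfl⟩
  have hcv : (fun a => ((-v) a : ZMod l)) = (Pi.single i (-((k * ℓ : ℕ) : ZMod l)) :
      Fin d → ZMod l) := by
    funext a
    rw [hv]
    by_cases h : a = i
    · subst h; simp
    · simp [Pi.single_eq_of_ne h]
  obtain ⟨ω', hω'⟩ : ∃ ω' : Link d l → G, ω' = trn (fun a => (v a : ZMod l)) ω := ⟨_, rfl⟩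
  have hmix : ∀ U : Link d l → G, mix (InsK i ℓ k) ω (trn (fun a => ((-v) a : ZMod l)) U) =
      trn (fun a => ((-v) a : ZMod l)) (mix (Ins i ℓ) ω' U) := by
    intro U
    funext e
    have e1 : InsK i ℓ k e ↔ Ins i ℓ (e.1 + (fun a => ((-v) a : ZMod l)), e.2) := by
      rw [hcv]; rfl
    by_cases h : InsK i ℓ k e
    · rw [mix_of h]
      show U _ = mix (Ins i ℓ) ω' U (e.1 + (fun a => ((-v) a : ZMod l)), e.2)
      rw [mix_of (e1.1 h)]
    · rw [mix_not h]
      show ω e = mix (Ins i ℓ) ω' U (e.1 + (fun a => ((-v) a : ZMod l)), e.2)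
      rw [mix_not (fun h' => h (e1.2 h')), hω']
      show ω e = ω (e.1 + (fun a => ((-v) a : ZMod l)) + (fun a => (v a : ZMod l)), e.2)
      congr 1
      refine Prod.ext ?_ rfl
      funext a
      simp
  have hφ : MeasurePreserving (trn (fun a => ((-v) a : ZMod l)) : (Link d l → G) → Link d l → G)
      (Measure.pi fun _ => μ) (Measure.pi fun _ => μ) :=
    mp_perm (sig (fun a => ((-v) a : ZMod l)))
  have key := EC_map (μ := μ) (A := InsK i ℓ k) (A' := Ins i ℓ) (Sc (d := d) (l := l) (G := G) β)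
    (f := gg i j ℓ T k a b c e) (g := fun V => mt (line (per V) i ℓ 0) a b *
        star (mt (line (per V) i ℓ (Pi.single j (T : ℤ))) e c))
    (gg_cont i j ℓ T k a b c e) (ω := ω) (ω' := ω') hφ 0 (fun U => by
      rw [hmix, action_trn, add_zero]) 1 (fun U => by
      rw [hmix]
      unfold gg
      rw [line_trn, line_trn, one_mul]
      have e1 : (Pi.single i ((k * ℓ : ℕ) : ℤ) + -v : Fin d → ℤ) = 0 := by
        rw [hv]; simp
      have e2 : (Pi.single i ((k * ℓ : ℕ) : ℤ) + Pi.single j (T : ℤ) + -v : Fin d → ℤ) =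
          Pi.single j (T : ℤ) := by
        rw [hv]; abel
      rw [e1, e2])
  rw [key, one_mul]
  exact hδ ω' a b c e

lemma trace_expand (Y K : Mt N) : trace (Y * K) = ∑ a, ∑ e, Y a e * K e a := by
  simp [Matrix.trace, Matrix.mul_apply]

/-- one step: the integration over the inside of the slab `k` -/
lemma step [NeZero l] {β : ℝ} {i j : Fin d} (hij : j ≠ i) {ℓ T : ℕ} (hℓ : 1 ≤ ℓ) {δ : ℝ}
    (hδ : ∀ (ω : Link d l → G) (a b c e : Fin N),
      ‖EC μ (Ins i ℓ) (fun U => β * action U) ω (fun V => mt (line (per V) i ℓ 0) a b *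
        star (mt (line (per V) i ℓ (Pi.single j (T : ℤ))) e c))‖ ≤ δ)
    {k : ℕ} (hk : (k + 1) * ℓ < l) {M : (Link d l → G) → Mt N} (hMc : Continuous M)
    (hMd : DepG i ((k + 1) * ℓ) M) {B : ℝ} (hMb : ∀ ω a b, ‖M ω a b‖ ≤ B) :
    ∃ M' : (Link d l → G) → Mt N, Continuous M' ∧ DepG i (k * ℓ) M' ∧
      (∀ ω a b, ‖M' ω a b‖ ≤ N ^ 2 * δ * B) ∧
      ∫ U, trace (mt (line (per U) i ((k + 1) * ℓ) 0) * M U *
        (mt (line (per U) i ((k + 1) * ℓ) (Pi.single j (T : ℤ))))ᴴ *
        (mt (line (per U) j T 0))ᴴ) * (Real.exp (-(β * action U)) : ℂ)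
          ∂(Measure.pi fun _ : Link d l => μ) =
      ∫ U, trace (mt (line (per U) i (k * ℓ) 0) * M' U *
        (mt (line (per U) i (k * ℓ) (Pi.single j (T : ℤ))))ᴴ *
        (mt (line (per U) j T 0))ᴴ) * (Real.exp (-(β * action U)) : ℂ)
          ∂(Measure.pi fun _ : Link d l => μ) := by
  have hS := Sc (d := d) (l := l) (G := G) β
  have hkk : k * ℓ + ℓ = (k + 1) * ℓ := by ring
  obtain ⟨J, hJ⟩ : ∃ J : (Link d l → G) → Fin N → Fin N → Fin N → Fin N → ℂ,
    J = fun ω a b c e => EC μ (InsK i ℓ k) (fun U => β * action U) ω (gg i j ℓ T k a b c e) :=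
    ⟨_, rfl⟩
  have hJc : ∀ a b c e, Continuous fun ω => J ω a b c e := by
    intro a b c e
    rw [hJ]
    exact EC_cont hS (gg_cont i j ℓ T k a b c e)
  have hJb : ∀ ω a b c e, ‖J ω a b c e‖ ≤ δ := by
    intro ω a b c e
    rw [hJ]
    exact slab_k μ hδ k ω a b c e
  -- the crossing lines only depend on the inside
  have hPdep : ∀ (ω ω' : Link d l → G), (∀ e : Link d l, k * ℓ ≤ (e.1 i).val → ω e = ω' e) →
      ∀ y : Fin d → ℤ, y i = ((k * ℓ : ℕ) : ℤ) →
      line (per ω) i ℓ y = line (per ω') i ℓ y := by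
    intro ω ω' h y hy
    exact line_dep (c := k * ℓ) (by omega) y hy (fun s => k * ℓ ≤ s) (fun s _ => by omega)
      fun e _ he => h e he
  have hy1 : (Pi.single i ((k * ℓ : ℕ) : ℤ) : Fin d → ℤ) i = ((k * ℓ : ℕ) : ℤ) :=
    Pi.single_eq_same _ _
  have hy2 : (Pi.single i ((k * ℓ : ℕ) : ℤ) + Pi.single j (T : ℤ) : Fin d → ℤ) i =
      ((k * ℓ : ℕ) : ℤ) := by
    rw [Pi.add_apply, Pi.single_eq_same, Pi.single_eq_of_ne (Ne.symm hij), add_zero]
  have hJd : ∀ a b c e, DepG i (k * ℓ) fun ω => J ω a b c e := by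
    intro a b c e ω ω' h
    have hmix : ∀ U : Link d l → G, ∀ q : Link d l, k * ℓ ≤ (q.1 i).val →
        mix (InsK i ℓ k) ω U q = mix (InsK i ℓ k) ω' U q := by
      intro U q hq
      by_cases hI : InsK i ℓ k q
      · rw [mix_of hI, mix_of hI]
      · rw [mix_not hI, mix_not hI, h q hq]
    have key := EC_map (μ := μ) (A := InsK i ℓ k) (A' := InsK i ℓ k) hS
      (f := gg i j ℓ T k a b c e) (g := gg i j ℓ T k a b c e)
      (gg_cont i j ℓ T k a b c e) (ω := ω) (ω' := ω')
      (φ := id) (MeasurePreserving.id _) (β * (action ω - action ω')) (fun U => by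
        simp only [id]
        rw [action_loc hk hℓ h U]
        ring) 1 (fun U => by
        simp only [id, one_mul]
        unfold gg
        rw [hPdep _ _ (hmix U) _ hy1, hPdep _ _ (hmix U) _ hy2])
    rw [hJ]
    simp only
    rw [key, one_mul]
  refine ⟨fun ω => Matrix.of fun a e => ∑ b, ∑ c, J ω a b c e * M ω b c, ?_, ?_, ?_, ?_⟩
  · refine continuous_matrix fun a e => ?_
    simp only [Matrix.of_apply]
    exact continuous_finsetSum _ fun b _ => continuous_finsetSum _ fun c _ =>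
      (hJc a b c e).mul (entry_cont hMc b c)
  · intro ω ω' h
    have h1 : M ω = M ω' := hMd ω ω' fun e he => h e (by omega)
    ext a e
    simp only [Matrix.of_apply]
    refine Finset.sum_congr rfl fun b _ => Finset.sum_congr rfl fun c _ => ?_
    have h2 : J ω a b c e = J ω' a b c e := hJd a b c e ω ω' h
    rw [h1, h2]
  · intro ω a e
    simp only [Matrix.of_apply]
    refine (norm_sum_le _ _).trans ?_
    have h1 : ∀ b : Fin N, ‖∑ c, J ω a b c e * M ω b c‖ ≤ N * (δ * B) := by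
      intro b
      refine (norm_sum_le _ _).trans ?_
      have h2 : ∀ c : Fin N, ‖J ω a b c e * M ω b c‖ ≤ δ * B := by
        intro c
        rw [norm_mul]
        exact mul_le_mul (hJb ω a b c e) (hMb ω b c) (norm_nonneg _)
          ((norm_nonneg _).trans (hJb ω a b c e))
      refine (Finset.sum_le_sum fun c _ => h2 c).trans ?_
      simp
    refine (Finset.sum_le_sum fun b _ => h1 b).trans (le_of_eq ?_)
    simp
    ring
  · have hf : Continuous fun U : Link d l → G => trace (mt (line (per U) i ((k + 1) * ℓ) 0) * M U *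
        (mt (line (per U) i ((k + 1) * ℓ) (Pi.single j (T : ℤ))))ᴴ *
        (mt (line (per U) j T 0))ᴴ) :=
      ((((lineU_cont _ _ _).mul hMc).mul (lineU_cont _ _ _).matrix_conjTranspose).mul
        (lineU_cont _ _ _).matrix_conjTranspose).matrix_trace
    rw [← dlr (μ := μ) (A := InsK i ℓ k) hS hf]
    refine integral_congr_ae (Eventually.of_forall fun ω => ?_)
    simp only
    congr 1
    obtain ⟨K, hK⟩ : ∃ K : Mt N, K = (mt (line (per ω) i (k * ℓ) (Pi.single j (T : ℤ))))ᴴ *
        (mt (line (per ω) j T 0))ᴴ * mt (line (per ω) i (k * ℓ) 0) := ⟨_, rfl⟩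
    -- the other factors do not depend on the inside of the slab
    have hins : ∀ e : Link d l, InsK i ℓ k e ↔ k * ℓ ≤ (e.1 i).val ∧
        (e.1 i).val < (k + 1) * ℓ ∧ (e.2 = i ∨ k * ℓ < (e.1 i).val) :=
      insK_iff hk.le hℓ
    have hL : ∀ (U : Link d l → G) (y : Fin d → ℤ), y i = 0 →
        line (per (mix (InsK i ℓ k) ω U)) i (k * ℓ) y = line (per ω) i (k * ℓ) y := by
      intro U y hy
      refine line_dep (c := 0) (by omega) y (by rw [hy]; rfl) (fun s => s < k * ℓ)
        (fun s hs => by omega) fun e _ he => ?_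
      rw [mix_not]
      rw [hins]
      omega
    have hD : ∀ U : Link d l → G,
        line (per (mix (InsK i ℓ k) ω U)) j T 0 = line (per ω) j T 0 := by
      intro U
      refine line_dep' hij (c := 0) (by omega) T 0 (by simp) fun e he1 he2 => ?_
      rw [mix_not]
      rw [hins, he1, he2]
      rintro ⟨h1, h2, h3 | h3⟩
      · exact hij h3
      · omega
    have hM : ∀ U : Link d l → G, M (mix (InsK i ℓ k) ω U) = M ω := by
      intro U
      refine hMd _ _ fun e he => ?_
      rw [mix_not]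
      rw [hins]
      omega
    have hTi : (Pi.single j (T : ℤ) : Fin d → ℤ) i = 0 := Pi.single_eq_of_ne (Ne.symm hij) _
    rw [EC_sum hS (Finset.univ : Finset (Fin N × Fin N × Fin N × Fin N))
      (f := fun p => gg i j ℓ T k p.1 p.2.2.1 p.2.2.2 p.2.1)
      (fun p => gg_cont i j ℓ T k _ _ _ _) (fun p => M ω p.2.2.1 p.2.2.2 * K p.2.1 p.1)]
    · have e1 : trace (mt (line (per ω) i (k * ℓ) 0) *
          (Matrix.of fun a e => ∑ b, ∑ c, J ω a b c e * M ω b c) *
          (mt (line (per ω) i (k * ℓ) (Pi.single j (T : ℤ))))ᴴ *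
          (mt (line (per ω) j T 0))ᴴ) =
          trace ((Matrix.of fun a e => ∑ b, ∑ c, J ω a b c e * M ω b c) * K) := by
        rw [hK, Matrix.mul_assoc, Matrix.mul_assoc, Matrix.trace_mul_comm, Matrix.mul_assoc]
      rw [e1, trace_expand]
      simp only [Fintype.sum_prod_type, Matrix.of_apply, Finset.sum_mul]
      refine Finset.sum_congr rfl fun a _ => Finset.sum_congr rfl fun e _ =>
        Finset.sum_congr rfl fun b _ => Finset.sum_congr rfl fun c _ => ?_
      rw [hJ]
      ring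
    · intro U
      obtain ⟨V, hV⟩ : ∃ V, V = mix (InsK i ℓ k) ω U := ⟨_, rfl⟩
      have e2 : line (per V) i ((k + 1) * ℓ) 0 = line (per ω) i (k * ℓ) 0 *
          line (per V) i ℓ (Pi.single i ((k * ℓ : ℕ) : ℤ)) := by
        rw [← hkk, line_add, hV, hL U 0 rfl, zero_add]
      have e3 : line (per V) i ((k + 1) * ℓ) (Pi.single j (T : ℤ)) =
          line (per ω) i (k * ℓ) (Pi.single j (T : ℤ)) *
          line (per V) i ℓ (Pi.single i ((k * ℓ : ℕ) : ℤ) + Pi.single j (T : ℤ)) := by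
        rw [← hkk, line_add, hV, hL U _ hTi, add_comm (Pi.single j (T : ℤ) : Fin d → ℤ)]
      rw [← hV, e2, e3, hV, hD, hM, ← hV, mt_mul, mt_mul, Matrix.conjTranspose_mul]
      obtain ⟨P, hP⟩ : ∃ P, P = mt (line (per V) i ℓ (Pi.single i ((k * ℓ : ℕ) : ℤ))) := ⟨_, rfl⟩
      obtain ⟨Q, hQ⟩ : ∃ Q, Q = mt (line (per V) i ℓ (Pi.single i ((k * ℓ : ℕ) : ℤ) +
        Pi.single j (T : ℤ))) := ⟨_, rfl⟩
      have e4 : ∀ a b c e, gg i j ℓ T k a b c e V = P a b * star (Q e c) := by
        intro a b c e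
        rw [hP, hQ]; rfl
      rw [← hP, ← hQ]
      have e5 : trace (mt (line (per ω) i (k * ℓ) 0) * P * M ω *
          (Qᴴ * (mt (line (per ω) i (k * ℓ) (Pi.single j (T : ℤ))))ᴴ) *
          (mt (line (per ω) j T 0))ᴴ) = trace ((P * M ω * Qᴴ) * K) := by
        rw [hK]
        have : mt (line (per ω) i (k * ℓ) 0) * P * M ω *
          (Qᴴ * (mt (line (per ω) i (k * ℓ) (Pi.single j (T : ℤ))))ᴴ) *
          (mt (line (per ω) j T 0))ᴴ = mt (line (per ω) i (k * ℓ) 0) * ((P * M ω * Qᴴ) *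
          ((mt (line (per ω) i (k * ℓ) (Pi.single j (T : ℤ))))ᴴ * (mt (line (per ω) j T 0))ᴴ)) := by
          simp only [Matrix.mul_assoc]
        rw [this, Matrix.trace_mul_comm]
        simp only [Matrix.mul_assoc]
      rw [e5, trace_expand]
      simp only [Fintype.sum_prod_type, e4]
      refine Finset.sum_congr rfl fun a _ => Finset.sum_congr rfl fun e _ => ?_
      have e6 : (P * M ω * Qᴴ) a e = ∑ b, ∑ c, P a b * M ω b c * star (Q e c) := by
        rw [Matrix.mul_apply]
        simp only [Matrix.mul_apply, Matrix.conjTranspose_apply, Finset.sum_mul]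
        rw [Finset.sum_comm]
      rw [e6, Finset.sum_mul]
      refine Finset.sum_congr rfl fun b _ => ?_
      rw [Finset.sum_mul]
      refine Finset.sum_congr rfl fun c _ => ?_
      ring

/-- the integration over the insides of the slabs `n - 1, ..., n - m` -/
lemma descend [NeZero l] {β : ℝ} {i j : Fin d} (hij : j ≠ i) {ℓ T : ℕ} (hℓ : 1 ≤ ℓ) {δ : ℝ}
    (hδ : ∀ (ω : Link d l → G) (a b c e : Fin N),
      ‖EC μ (Ins i ℓ) (fun U => β * action U) ω (fun V => mt (line (per V) i ℓ 0) a b *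
        star (mt (line (per V) i ℓ (Pi.single j (T : ℤ))) e c))‖ ≤ δ)
    {n : ℕ} (hn : n * ℓ < l) {X : (Link d l → G) → Mt N} (hXc : Continuous X)
    (hXd : DepG i (n * ℓ) X) (hXb : ∀ ω a b, ‖X ω a b‖ ≤ 1) :
    ∀ m : ℕ, m ≤ n → ∃ M : (Link d l → G) → Mt N, Continuous M ∧ DepG i ((n - m) * ℓ) M ∧
      (∀ ω a b, ‖M ω a b‖ ≤ (N ^ 2 * δ) ^ m) ∧
      ∫ U, trace (mt (line (per U) i (n * ℓ) 0) * X U *
        (mt (line (per U) i (n * ℓ) (Pi.single j (T : ℤ))))ᴴ *
        (mt (line (per U) j T 0))ᴴ) * (Real.exp (-(β * action U)) : ℂ)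
          ∂(Measure.pi fun _ : Link d l => μ) =
      ∫ U, trace (mt (line (per U) i ((n - m) * ℓ) 0) * M U *
        (mt (line (per U) i ((n - m) * ℓ) (Pi.single j (T : ℤ))))ᴴ *
        (mt (line (per U) j T 0))ᴴ) * (Real.exp (-(β * action U)) : ℂ)
          ∂(Measure.pi fun _ : Link d l => μ) := by
  intro m
  induction m with
  | zero =>
    intro _
    exact ⟨X, hXc, by simpa using hXd, by simpa using hXb, rfl⟩
  | succ m ih =>
    intro hm
    obtain ⟨M, h1, h2, h3, h4⟩ := ih (by omega)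
    obtain ⟨k, hk⟩ : ∃ k, k = n - (m + 1) := ⟨_, rfl⟩
    have hk1 : n - m = k + 1 := by omega
    rw [hk1] at h2 h4
    have hkl : (k + 1) * ℓ < l := by
      have : (k + 1) * ℓ ≤ n * ℓ := Nat.mul_le_mul_right _ (by omega)
      omega
    obtain ⟨M', g1, g2, g3, g4⟩ := step μ hij hℓ hδ hkl h1 h2 (B := (N ^ 2 * δ) ^ m) h3
    rw [← hk]
    refine ⟨M', g1, g2, fun ω a b => ?_, h4.trans g4⟩
    rw [pow_succ, mul_comm]
    exact g3 ω a b

lemma mul_entry {g : Mt N} (hg : g ∈ Matrix.unitaryGroup (Fin N) ℂ) (a b : Fin N) :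
    ‖g a b‖ ≤ 1 := entry_norm_bound_of_unitary hg a b

/-- the area law in finite volume -/
theorem torus_bound [NeZero l] {β : ℝ} {i j : Fin d} (hij : j ≠ i) {ℓ T : ℕ} (hℓ : 1 ≤ ℓ) {δ : ℝ}
    (hδ0 : 0 ≤ δ) (hδ : ∀ (ω : Link d l → G) (a b c e : Fin N),
      ‖EC μ (Ins i ℓ) (fun U => β * action U) ω (fun V => mt (line (per V) i ℓ 0) a b *
        star (mt (line (per V) i ℓ (Pi.single j (T : ℤ))) e c))‖ ≤ δ)
    (n r : ℕ) (hn : n * ℓ + r < l) :
    ‖∫ U, trace (mt (loop (per U) 0 i j (n * ℓ + r) T)) * (Real.exp (-(β * action U)) : ℂ)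
          ∂(Measure.pi fun _ : Link d l => μ)‖ ≤
      N ^ 2 * (N ^ 2 * δ) ^ n * ∫ U, Real.exp (-(β * action U))
          ∂(Measure.pi fun _ : Link d l => μ) := by
  obtain ⟨X, hX⟩ : ∃ X : (Link d l → G) → G, X = fun U =>
    line (per U) i r (Pi.single i ((n * ℓ : ℕ) : ℤ)) *
      line (per U) j T (Pi.single i ((n * ℓ + r : ℕ) : ℤ)) *
      (line (per U) i r (Pi.single j (T : ℤ) + Pi.single i ((n * ℓ : ℕ) : ℤ)))⁻¹ := ⟨_, rfl⟩
  have hXc : Continuous fun U => mt (X U) := by
    rw [hX]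
    exact mt_cont.comp ((((line_cont _ _ _).comp per_cont).mul
      ((line_cont _ _ _).comp per_cont)).mul ((line_cont _ _ _).comp per_cont).inv)
  have hy1 : (Pi.single i ((n * ℓ : ℕ) : ℤ) : Fin d → ℤ) i = ((n * ℓ : ℕ) : ℤ) :=
    Pi.single_eq_same _ _
  have hy2 : (Pi.single j (T : ℤ) + Pi.single i ((n * ℓ : ℕ) : ℤ) : Fin d → ℤ) i =
      ((n * ℓ : ℕ) : ℤ) := by
    rw [Pi.add_apply, Pi.single_eq_same, Pi.single_eq_of_ne (Ne.symm hij), zero_add]
  have hy3 : (Pi.single i ((n * ℓ + r : ℕ) : ℤ) : Fin d → ℤ) i = ((n * ℓ + r : ℕ) : ℤ) :=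
    Pi.single_eq_same _ _
  have hXd : DepG i (n * ℓ) fun U => mt (X U) := by
    intro ω ω' h
    rw [hX]
    simp only
    rw [line_dep (c := n * ℓ) (ω := ω) (ω' := ω') (by omega) _ hy1 (fun s => n * ℓ ≤ s)
      (fun s _ => by omega) (fun e _ he => h e he),
      line_dep (c := n * ℓ) (ω := ω) (ω' := ω') (by omega) _ hy2 (fun s => n * ℓ ≤ s)
      (fun s _ => by omega) (fun e _ he => h e he),
      line_dep' hij (c := n * ℓ + r) (ω := ω) (ω' := ω') (by omega) T _ hy3
        (fun e _ he => h e (by omega))]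
  obtain ⟨M, h1, h2, h3, h4⟩ := descend μ hij hℓ hδ (n := n) (by omega) hXc hXd
    (fun ω a b => mt_entry _ a b) n le_rfl
  have hloop : ∀ U : Link d l → G, trace (mt (loop (per U) 0 i j (n * ℓ + r) T)) =
      trace (mt (line (per U) i (n * ℓ) 0) * mt (X U) *
        (mt (line (per U) i (n * ℓ) (Pi.single j (T : ℤ))))ᴴ *
        (mt (line (per U) j T 0))ᴴ) := by
    intro U
    have hg : ∀ a b c d e f : G, a * b * c * (d * e)⁻¹ * f⁻¹ = a * (b * c * e⁻¹) * d⁻¹ * f⁻¹ := by
      intro a b c d e f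
      rw [_root_.mul_inv_rev]
      simp only [mul_assoc]
    have hG : loop (per U) 0 i j (n * ℓ + r) T = line (per U) i (n * ℓ) 0 * X U *
        (line (per U) i (n * ℓ) (Pi.single j (T : ℤ)))⁻¹ * (line (per U) j T 0)⁻¹ := by
      unfold loop
      rw [line_add, line_add, hX]
      simp only [zero_add]
      exact hg _ _ _ _ _ _
    rw [hG, mt_mul, mt_mul, mt_mul, mt_inv, mt_inv]
  simp only [hloop]
  rw [h4]
  simp only [Nat.sub_self, Nat.zero_mul]
  have hb : ∀ U : Link d l → G, ‖trace (mt (line (per U) i 0 0) * M U *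
        (mt (line (per U) i 0 (Pi.single j (T : ℤ))))ᴴ *
        (mt (line (per U) j T 0))ᴴ) * (Real.exp (-(β * action U)) : ℂ)‖ ≤
      N ^ 2 * (N ^ 2 * δ) ^ n * Real.exp (-(β * action U)) := by
    intro U
    rw [norm_mul]
    have e1 : ‖(Real.exp (-(β * action U)) : ℂ)‖ = Real.exp (-(β * action U)) := by
      rw [Complex.norm_real, Real.norm_eq_abs, abs_of_pos (Real.exp_pos _)]
    rw [e1]
    refine mul_le_mul_of_nonneg_right ?_ (Real.exp_pos _).le
    have e2 : mt (line (per U) i 0 0) * M U *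
        (mt (line (per U) i 0 (Pi.single j (T : ℤ))))ᴴ *
        (mt (line (per U) j T 0))ᴴ = M U * (mt (line (per U) j T 0))ᴴ := by
      show mt 1 * M U * (mt 1)ᴴ * _ = _
      rw [mt_one, Matrix.one_mul, Matrix.conjTranspose_one, Matrix.mul_one]
    rw [e2, trace_expand]
    refine (norm_sum_le _ _).trans ?_
    have h5 : ∀ a : Fin N, ‖∑ e, M U a e * (mt (line (per U) j T 0))ᴴ e a‖ ≤
        N * (N ^ 2 * δ) ^ n := by
      intro a
      refine (norm_sum_le _ _).trans ?_
      have h6 : ∀ e : Fin N, ‖M U a e * (mt (line (per U) j T 0))ᴴ e a‖ ≤ (N ^ 2 * δ) ^ n := by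
        intro e
        rw [norm_mul, Matrix.conjTranspose_apply, norm_star]
        calc ‖M U a e‖ * ‖mt (line (per U) j T 0) a e‖ ≤ (N ^ 2 * δ) ^ n * 1 :=
              mul_le_mul (h3 U a e) (mt_entry _ _ _) (norm_nonneg _) (by positivity)
          _ = _ := mul_one _
      refine (Finset.sum_le_sum fun e _ => h6 e).trans ?_
      simp
    refine (Finset.sum_le_sum fun a _ => h5 a).trans (le_of_eq ?_)
    simp
    ring
  refine (norm_integral_le_integral_norm _).trans ?_
  rw [← integral_const_mul]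
  refine integral_mono_of_nonneg (Eventually.of_forall fun U => norm_nonneg _) ?_
    (Eventually.of_forall hb)
  exact int_cont (Measure.pi fun _ : Link d l => μ)
    (continuous_const.mul (exp_cont (Sc (d := d) (l := l) (G := G) β)))

/-- the crossing line has mean zero for every boundary condition -/
lemma mean_zero [μ.IsMulLeftInvariant] [NeZero l] {β : ℝ} {i : Fin d} {ℓ : ℕ} (hℓ : 1 ≤ ℓ)
    (hl : ℓ ≤ l) {z : G} {ζ : ℂ} (hz : mt z = ζ • (1 : Mt N)) (hζ : ζ ≠ 1)
    (ω : Link d l → G) (a b : Fin N) :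
    EC μ (Ins i ℓ) (fun U => β * action U) ω (fun V => mt (line (per V) i ℓ 0) a b) = 0 := by
  have hzc : ∀ g : G, z * g = g * z := by
    intro g
    have : mt (z * g) = mt (g * z) := by
      rw [mt_mul, mt_mul, hz]
      simp
    exact Subtype.ext (Subtype.ext this)
  have hφ : MeasurePreserving (twist i z : (Link d l → G) → Link d l → G)
      (Measure.pi fun _ => μ) (Measure.pi fun _ => μ) := by
    classical
    have h1 : (twist i z : (Link d l → G) → Link d l → G) = fun U =>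
        fun e => (if e.2 = i ∧ e.1 i = 0 then z else 1) * U e := by
      funext U e
      unfold twist
      by_cases h : e.2 = i ∧ e.1 i = 0
      · rw [if_pos h, if_pos h]
      · rw [if_neg h, if_neg h, one_mul]
    rw [h1]
    exact measurePreserving_pi _ _ fun e => measurePreserving_mul_left μ _
  have key := EC_map (μ := μ) (A := Ins i ℓ) (A' := Ins i ℓ) (Sc (d := d) (l := l) (G := G) β)
    (f := fun V => mt (line (per V) i ℓ 0) a b) (g := fun V => mt (line (per V) i ℓ 0) a b)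
    (entry_cont (lineU_cont _ _ _) _ _) (ω := ω) (ω' := ω) hφ 0 (fun U => by
      rw [mix_twist hℓ, action_twist hzc, add_zero]) ζ (fun U => by
      rw [mix_twist hℓ, line_twist hℓ hl, mt_mul, hz, Matrix.smul_mul, Matrix.one_mul]
      rfl)
  have h2 : (1 - ζ) * EC μ (Ins i ℓ) (fun U => β * action U) ω
      (fun V => mt (line (per V) i ℓ 0) a b) = 0 := by
    rw [sub_mul, one_mul, ← key, sub_self]
  rcases mul_eq_zero.1 h2 with h | h
  · exact absurd (sub_eq_zero.1 h).symm hζ
  · exact h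

end

end

end Pool.Agent.Q234.SL
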