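import Pool.Agent.Q260.SL.Stm

set_option autoImplicit false

/-!
# Job SL-KL (project SL of helper260): the key lemma
-/

namespace Pool.Agent.Q234.SL

open Complex Filter Topology Metric Set Polynomial
open Pool.Agent.H24R2.JP (HH XX Om)
open Pool.Agent.Q260.DJ (Cl NZ Ok EE)
open Pool.Agent.Q260.SL

lemma one_le_log {T : ℝ} (hT : 3 ≤ T) : 1 ≤ Real.log T := by
  rw [Real.le_log_iff_exp_le (by linarith)]
  have := Real.exp_one_lt_d9
  linarith

lemma log_le_half {T : ℝ} (hT : 0 < T) : Real.log T ≤ T / 2 := by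
  have h1 : Real.log (Real.sqrt T) ≤ Real.sqrt T - 1 := Real.log_le_sub_one_of_pos (Real.sqrt_pos.mpr hT)
  have h2 : Real.log (Real.sqrt T) = Real.log T / 2 := Real.log_sqrt hT.le
  have h3 : Real.sqrt T * Real.sqrt T = T := Real.mul_self_sqrt hT.le
  nlinarith [sq_nonneg (Real.sqrt T - 2)]

lemma ok_L {C T δ : ℝ} (hC : 1 ≤ C) (hT : 3 ≤ T) (h : Ok C T δ) : C / δ ^ 3 ≤ Real.log T := by
  obtain ⟨h0, h1, h2⟩ := h
  have hL := one_le_log hT
  refine h2.trans ?_
  calc Real.log T ^ (δ / C) ≤ Real.log T ^ (1 : ℝ) := by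
        apply Real.rpow_le_rpow_of_exponent_le hL
        rw [div_le_one (by linarith)]
        linarith
    _ = Real.log T := Real.rpow_one _

lemma ee_bound {C1 C T δ : ℝ} (h1 : 1 ≤ C1) (h2 : C1 ≤ C) (hT : 3 ≤ T) (h : Ok C T δ) :
    EE C1 T δ ≤ C1 / C * (δ * Real.log T) := by
  obtain ⟨h0, h3, h4⟩ := h
  have hL := one_le_log hT
  have hL0 : 0 < Real.log T := by linarith
  have hC : 0 < C := by linarith
  have hC1 : 0 < C1 := by linarith
  have e1 : C / δ ^ 3 ≤ Real.log T ^ (δ / C1) := by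
    refine h4.trans ?_
    apply Real.rpow_le_rpow_of_exponent_le hL
    exact div_le_div_of_nonneg_left h0.le hC1 h2
  have e2 : 0 < C / δ ^ 3 := by positivity
  have e3 : Real.log T ^ (1 - δ / C1) = Real.log T / Real.log T ^ (δ / C1) := by
    rw [Real.rpow_sub hL0, Real.rpow_one]
  unfold EE
  rw [e3]
  have e4 : Real.log T / Real.log T ^ (δ / C1) ≤ Real.log T / (C / δ ^ 3) :=
    div_le_div_of_nonneg_left hL0.le e2 e1
  calc C1 / δ ^ 2 * (Real.log T / Real.log T ^ (δ / C1)) ≤ C1 / δ ^ 2 * (Real.log T / (C / δ ^ 3)) :=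
        mul_le_mul_of_nonneg_left e4 (by positivity)
    _ = C1 / C * (δ * Real.log T) := by
        field_simp

lemma ee_near {C1 T T' δ : ℝ} (h1 : 1 ≤ C1) (h0 : 0 < δ) (hδ : δ ≤ 1) (hT : 3 ≤ T) (hT' : 3 ≤ T')
    (hl : Real.log T' ≤ Real.log T + 1 / 2) : EE C1 T' δ ≤ 2 * EE C1 T δ := by
  have hL := one_le_log hT
  have hL' := one_le_log hT'
  have hp0 : 0 ≤ 1 - δ / C1 := by
    rw [sub_nonneg, div_le_one (by linarith)]; linarith
  have hp1 : 1 - δ / C1 ≤ 1 := by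
    have : 0 < δ / C1 := by positivity
    linarith
  unfold EE
  have e1 : Real.log T' ^ (1 - δ / C1) ≤ 2 * Real.log T ^ (1 - δ / C1) := by
    calc Real.log T' ^ (1 - δ / C1) ≤ (2 * Real.log T) ^ (1 - δ / C1) :=
          Real.rpow_le_rpow (by linarith) (by linarith) hp0
      _ = 2 ^ (1 - δ / C1) * Real.log T ^ (1 - δ / C1) := Real.mul_rpow (by norm_num) (by linarith)
      _ ≤ 2 * Real.log T ^ (1 - δ / C1) := by
          apply mul_le_mul_of_nonneg_right _ (Real.rpow_nonneg (by linarith) _)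
          calc (2 : ℝ) ^ (1 - δ / C1) ≤ 2 ^ (1 : ℝ) :=
                Real.rpow_le_rpow_of_exponent_le (by norm_num) hp1
            _ = 2 := Real.rpow_one _
  have e2 : 0 ≤ C1 / δ ^ 2 := by positivity
  nlinarith [mul_le_mul_of_nonneg_left e1 e2]

lemma log_near {T T' W : ℝ} (hT : 3 ≤ T) (hT' : 3 ≤ T') (hW : W ≤ T / 2) (h : |T' - T| ≤ W) :
    Real.log T' ≤ Real.log T + 1 / 2 := by
  have h1 : Real.log (T' / T) ≤ T' / T - 1 := Real.log_le_sub_one_of_pos (by positivity)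
  rw [Real.log_div (by linarith) (by linarith)] at h1
  have h2 : T' / T ≤ 3 / 2 := by
    rw [div_le_iff₀ (by linarith)]
    have := (abs_le.mp h).2
    linarith
  linarith

lemma exp_dom (A B : ℝ) (n : ℕ) (hA : 0 ≤ A) (hB : 0 ≤ B) :
    ∃ c : ℝ, 0 ≤ c ∧ ∀ y : ℝ, 1 ≤ y → A * (B * y) ^ n ≤ Real.exp (c * y) := by
  refine ⟨A * (n.factorial : ℝ) + B, by positivity, fun y hy => ?_⟩
  have h1 : (B * y) ^ n / (n.factorial : ℝ) ≤ Real.exp (B * y) :=
    Real.pow_div_factorial_le_exp (B * y) (by positivity) n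
  have h2 : (B * y) ^ n ≤ (n.factorial : ℝ) * Real.exp (B * y) := by
    rw [div_le_iff₀ (by positivity)] at h1
    linarith
  have h3 : A * (n.factorial : ℝ) ≤ Real.exp (A * (n.factorial : ℝ) * y) := by
    have h5 : A * (n.factorial : ℝ) ≤ A * (n.factorial : ℝ) * y := by
      have : 0 ≤ A * (n.factorial : ℝ) := by positivity
      nlinarith
    have h6 := Real.add_one_le_exp (A * (n.factorial : ℝ) * y)
    linarith
  calc A * (B * y) ^ n ≤ A * ((n.factorial : ℝ) * Real.exp (B * y)) := mul_le_mul_of_nonneg_left h2 hA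
    _ = A * (n.factorial : ℝ) * Real.exp (B * y) := by ring
    _ ≤ Real.exp (A * (n.factorial : ℝ) * y) * Real.exp (B * y) :=
        mul_le_mul_of_nonneg_right h3 (Real.exp_pos _).le
    _ = Real.exp ((A * (n.factorial : ℝ) + B) * y) := by rw [← Real.exp_add]; ring_nf

/-- The key lemma with all constants as variables: pure part. -/
lemma core (h1 : S_ZA) (k : ℕ) {CH TH C2 C3 T θ δ W E1 : ℝ}
    (h2c : ∀ x x' T v : ℝ, -3 ≤ x → x ≤ x' → x' ≤ 3 → TH ≤ T → TH ≤ T + v →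
      ‖HM (x' + I * ((T + v : ℝ) : ℂ))‖ ≤ Real.exp (CH * (1 + |v|) - Om T * (x' - x)) * ‖HM (x + I * T)‖)
    (h2a : ∀ z : ℂ, 0 < z.im → HM z ≠ 0)
    (hLG : ∀ (P : ℂ[X]) (a : ℂ) (δ W : ℝ), P.natDegree ≤ k → 0 < δ → δ ≤ 1 → 1 ≤ W →
      ∃ x : ℝ, 0 ≤ x ∧ x ≤ δ ∧ ∀ z : ℂ, ‖z - a‖ ≤ W → ‖P.eval z‖ ≤ C2 * (W / δ) ^ k * ‖P.eval (a + x)‖)
    (h5 : S_TY)
    (hMP : ∀ T W b x2 M : ℝ, C3 ≤ T → C3 ≤ W → C3 * W ≤ Real.log T → 0 ≤ x2 → x2 ≤ b → b ≤ 1 →
      (∀ y : ℝ, |y - T| ≤ W → ‖XX (b + I * y)‖ ≤ M) →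
      ‖XX (x2 + I * T)‖ ≤ Real.exp (C3 * Real.log T / W ^ 2) * M + ‖HM (x2 + I * T)‖)
    (hCH : 1 ≤ CH) (hC2 : 1 ≤ C2) (hT3 : 3 ≤ T) (hT : TH ≤ T) (hTW : TH ≤ T - W) (hTW3 : 3 ≤ T - W)
    (hθ : 0 ≤ θ) (hθ4 : θ + 4 * δ ≤ 1) (hδ : 0 < δ) (_hδ1 : δ ≤ 1 / 2) (hW : 4 ≤ W)
    (m1 : C3 ≤ T) (m2 : C3 ≤ W) (m3 : C3 * W ≤ Real.log T) (hE1 : 1 ≤ E1)
    (hZ : ∀ z : ℂ, θ + δ ≤ z.re → z.re ≤ 2 → |z.im - T| ≤ W → ‖Zk k z‖ ≤ E1 * Real.exp (Real.log T * z.re))
    (n1 : 2 * (C2 * ((W + 3) / δ) ^ k) * Real.exp (C3 * Real.log T / W ^ 2 + CH * (1 + W) - Real.log T * δ / 2) ≤ 1)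
    (n2 : 7 * (C2 * ((W + 3) / δ) ^ k) * ((W + 1) ^ k * E1) ≤ Real.exp (Real.log T * δ)) :
    ∀ z : ℂ, |z.im - T| ≤ 4 → θ + δ ≤ z.re → z.re ≤ 2 → ‖Zk 0 z‖ ≤ Real.exp (Real.log T * (z.re + 3 * δ)) := by
  set L := Real.log T with hLdef
  have hL : 1 ≤ L := one_le_log hT3
  set D : ℝ := (W + 1) ^ k * E1 with hD
  have hW1 : (1 : ℝ) ≤ (W + 1) ^ k := one_le_pow₀ (by linarith)
  have hD1 : 1 ≤ D := by rw [hD]; nlinarith
  set Q : ℝ := C2 * ((W + 3) / δ) ^ k with hQ
  have hQ1 : 1 ≤ Q := by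
    have e1 : (1 : ℝ) ≤ (W + 3) / δ := by
      rw [le_div_iff₀ hδ]; linarith
    have e2 : (1 : ℝ) ≤ ((W + 3) / δ) ^ k := one_le_pow₀ e1
    rw [hQ]; nlinarith
  -- the polynomial
  obtain ⟨P, hPd, hP⟩ := h5 k Zk (θ + δ) 2 T W (E1 * Real.exp (L * (θ + δ))) L hL (by positivity) (by linarith)
    (by linarith)
    (fun j _ z _ _ hz => (h1.1 j z (by have := (abs_le.mp hz).1; linarith)).2.1)
    (fun z hz1 hz2 hz3 => by
      refine (hZ z hz1 hz2 hz3).trans (le_of_eq ?_)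
      rw [mul_assoc, ← Real.exp_add]; ring_nf)
  have hP' : ∀ z : ℂ, θ + δ ≤ z.re → z.re ≤ 2 → |z.im - T| ≤ W → ‖Zk 0 z - P.eval z‖ ≤ D * Real.exp (L * z.re) := by
    intro z a1 a2 a3
    refine (hP z a1 a2 a3).trans (le_of_eq ?_)
    rw [hD]
    have : Real.exp (L * z.re) = Real.exp (L * (θ + δ)) * Real.exp (L * (z.re - (θ + δ))) := by
      rw [← Real.exp_add]; ring_nf
    rw [this]; ring
  obtain ⟨x, hx0, hxδ, hx⟩ := hLG P (((θ + δ : ℝ) : ℂ) + I * (T : ℂ)) δ (W + 3) hPd hδ (by linarith) (by linarith)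
  set x2 : ℝ := θ + δ + x with hx2
  set b : ℝ := θ + 3 * δ with hb
  have hbx : b - x2 ≥ δ := by rw [hb, hx2]; linarith
  have hw2 : ((θ + δ : ℝ) : ℂ) + I * (T : ℂ) + (x : ℂ) = (x2 : ℂ) + I * (T : ℂ) := by
    rw [hx2]; push_cast; ring
  rw [hw2] at hx
  set p : ℝ := ‖P.eval ((x2 : ℂ) + I * (T : ℂ))‖ with hp
  have hp0 : 0 ≤ p := norm_nonneg _
  have hHM2 : 0 < ‖HM ((x2 : ℂ) + I * (T : ℂ))‖ := by
    rw [norm_pos_iff]
    apply h2a
    simp
    linarith
  -- bound on the vertical line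
  have hM : ∀ y : ℝ, |y - T| ≤ W → ‖XX ((b : ℂ) + I * (y : ℂ))‖ ≤
      (Q * p + D * Real.exp (L * b)) * (Real.exp (CH * (1 + W) - L * δ / 2) * ‖HM ((x2 : ℂ) + I * (T : ℂ))‖) := by
    intro y hy
    have hy2 := abs_le.mp hy
    have hyp : 0 < y := by linarith
    rw [h1.2.1 _ (by simp; linarith)]
    unfold Gk
    rw [norm_mul]
    apply mul_le_mul _ _ (norm_nonneg _) (by positivity)
    · -- Zk 0
      have a1 := hP' ((b : ℂ) + I * (y : ℂ)) (by simp; rw [hb]; linarith) (by simp; rw [hb]; linarith) (by simpa using hy)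
      have a2 := hx ((b : ℂ) + I * (y : ℂ)) (by
        have e : (b : ℂ) + I * (y : ℂ) - (((θ + δ : ℝ) : ℂ) + I * (T : ℂ)) =
            ((b - (θ + δ) : ℝ) : ℂ) + ((y - T : ℝ) : ℂ) * I := by push_cast; ring
        rw [e]
        refine (norm_add_le _ _).trans ?_
        rw [norm_mul, Complex.norm_I, mul_one, Complex.norm_real, Complex.norm_real, Real.norm_eq_abs,
          Real.norm_eq_abs]
        have : |b - (θ + δ)| ≤ 3 := by
          rw [abs_le, hb]; constructor <;> linarith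
        linarith)
      have a3 : ((b : ℂ) + I * (y : ℂ)).re = b := by simp
      rw [a3] at a1
      calc ‖Zk 0 ((b : ℂ) + I * (y : ℂ))‖
          = ‖P.eval ((b : ℂ) + I * (y : ℂ)) + (Zk 0 ((b : ℂ) + I * (y : ℂ)) - P.eval ((b : ℂ) + I * (y : ℂ)))‖ := by
            congr 1; ring
        _ ≤ _ := norm_add_le _ _
        _ ≤ Q * p + D * Real.exp (L * b) := add_le_add a2 a1
    · have c1 := h2c x2 b T (y - T) (by rw [hx2]; linarith) (by linarith) (by rw [hb]; linarith) hT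
        (by linarith)
      have c2 : T + (y - T) = y := by ring
      rw [c2] at c1
      refine c1.trans ?_
      apply mul_le_mul_of_nonneg_right _ (norm_nonneg _)
      apply Real.exp_le_exp.mpr
      have c3 : Om T = L / 2 := rfl
      rw [c3]
      have c4 : CH * (1 + |y - T|) ≤ CH * (1 + W) := by
        apply mul_le_mul_of_nonneg_left _ (by linarith)
        linarith
      have c5 : L / 2 * (b - x2) ≥ L / 2 * δ := by
        apply mul_le_mul_of_nonneg_left hbx (by linarith)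
      linarith
  have hmp := hMP T W b x2 _ m1 m2 m3 (by rw [hx2]; linarith) (by linarith) (by rw [hb]; linarith) hM
  rw [h1.2.1 ((x2 : ℂ) + I * (T : ℂ)) (by simp; linarith)] at hmp
  unfold Gk at hmp
  rw [norm_mul] at hmp
  have hZ2 : ‖Zk 0 ((x2 : ℂ) + I * (T : ℂ))‖ ≤
      Real.exp (C3 * L / W ^ 2 + CH * (1 + W) - L * δ / 2) * (Q * p + D * Real.exp (L * b)) + 1 := by
    have e1 : ‖Zk 0 ((x2 : ℂ) + I * (T : ℂ))‖ * ‖HM ((x2 : ℂ) + I * (T : ℂ))‖ ≤
        (Real.exp (C3 * L / W ^ 2 + CH * (1 + W) - L * δ / 2) * (Q * p + D * Real.exp (L * b)) + 1) *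
          ‖HM ((x2 : ℂ) + I * (T : ℂ))‖ := by
      refine hmp.trans (le_of_eq ?_)
      have : Real.exp (C3 * L / W ^ 2 + CH * (1 + W) - L * δ / 2) =
          Real.exp (C3 * L / W ^ 2) * Real.exp (CH * (1 + W) - L * δ / 2) := by
        rw [← Real.exp_add]; ring_nf
      rw [this]; ring
    exact le_of_mul_le_mul_right e1 hHM2
  set ex : ℝ := Real.exp (C3 * L / W ^ 2 + CH * (1 + W) - L * δ / 2) with hex
  have hex0 : 0 < ex := Real.exp_pos _
  have hexQ : Q * ex ≤ 1 / 2 := by linarith [n1]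
  have hex1 : ex ≤ 1 := by
    have b7 : 1 * ex ≤ Q * ex := mul_le_mul_of_nonneg_right hQ1 hex0.le
    linarith
  have hLb : 1 ≤ Real.exp (L * b) := Real.one_le_exp (by rw [hb]; positivity)
  have hLx : Real.exp (L * x2) ≤ Real.exp (L * b) := by
    apply Real.exp_le_exp.mpr
    apply mul_le_mul_of_nonneg_left _ (by linarith)
    linarith
  have hpb : p ≤ 6 * D * Real.exp (L * b) := by
    have a1 := hP' ((x2 : ℂ) + I * (T : ℂ)) (by simp; rw [hx2]; linarith) (by simp; rw [hx2]; linarith)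
      (by simp; linarith)
    have a3 : ((x2 : ℂ) + I * (T : ℂ)).re = x2 := by simp
    rw [a3] at a1
    have a2 : p ≤ ‖Zk 0 ((x2 : ℂ) + I * (T : ℂ))‖ + D * Real.exp (L * x2) := by
      calc p = ‖Zk 0 ((x2 : ℂ) + I * (T : ℂ)) - (Zk 0 ((x2 : ℂ) + I * (T : ℂ)) - P.eval ((x2 : ℂ) + I * (T : ℂ)))‖ := by
            rw [hp]; congr 1; ring
        _ ≤ _ := norm_sub_le _ _
        _ ≤ _ := by linarith
    have a4 : ex * (Q * p + D * Real.exp (L * b)) ≤ p / 2 + D * Real.exp (L * b) := by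
      have b1 : ex * (Q * p) ≤ p / 2 := by
        have b3 : Q * ex * p ≤ 1 / 2 * p := mul_le_mul_of_nonneg_right hexQ hp0
        have b4 : ex * (Q * p) = Q * ex * p := by ring
        rw [b4]; linarith
      have b2 : ex * (D * Real.exp (L * b)) ≤ D * Real.exp (L * b) := by
        have b5 : 0 ≤ D * Real.exp (L * b) := by positivity
        have b6 := mul_le_mul_of_nonneg_right hex1 b5
        linarith
      rw [mul_add]; linarith
    have a5 : D * Real.exp (L * x2) ≤ D * Real.exp (L * b) := mul_le_mul_of_nonneg_left hLx (by linarith)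
    have a6 : 1 ≤ D * Real.exp (L * b) := by
      have a7 := mul_le_mul hD1 hLb (by norm_num) (by linarith)
      linarith
    have a8 : 6 * D * Real.exp (L * b) = 6 * (D * Real.exp (L * b)) := by ring
    rw [a8]
    clear_value p D Q b x2 ex
    linarith
  -- conclusion
  intro z hz1 hz2 hz3
  have a1 := hP' z hz2 hz3 (by linarith)
  have a2 := hx z (by
    have e : z - (((θ + δ : ℝ) : ℂ) + I * (T : ℂ)) =
        ((z.re - (θ + δ) : ℝ) : ℂ) + ((z.im - T : ℝ) : ℂ) * I := by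
      apply Complex.ext <;> simp
    rw [e]
    refine (norm_add_le _ _).trans ?_
    rw [norm_mul, Complex.norm_I, mul_one, Complex.norm_real, Complex.norm_real, Real.norm_eq_abs,
      Real.norm_eq_abs]
    have : |z.re - (θ + δ)| ≤ 2 := by
      rw [abs_le]; constructor <;> linarith
    linarith)
  have a3 : ‖Zk 0 z‖ ≤ Q * p + D * Real.exp (L * z.re) := by
    calc ‖Zk 0 z‖ = ‖P.eval z + (Zk 0 z - P.eval z)‖ := by congr 1; ring
      _ ≤ _ := norm_add_le _ _
      _ ≤ Q * p + D * Real.exp (L * z.re) := add_le_add a2 a1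
  have hbz : Real.exp (L * b) ≤ Real.exp (L * (z.re + 2 * δ)) := by
    apply Real.exp_le_exp.mpr
    apply mul_le_mul_of_nonneg_left _ (by linarith)
    rw [hb]; linarith
  have hzz : Real.exp (L * z.re) ≤ Real.exp (L * (z.re + 2 * δ)) := by
    apply Real.exp_le_exp.mpr
    apply mul_le_mul_of_nonneg_left _ (by linarith)
    linarith
  have a4 : Q * p ≤ 6 * Q * D * Real.exp (L * (z.re + 2 * δ)) := by
    calc Q * p ≤ Q * (6 * D * Real.exp (L * b)) := mul_le_mul_of_nonneg_left hpb (by linarith)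
      _ = 6 * Q * D * Real.exp (L * b) := by ring
      _ ≤ _ := mul_le_mul_of_nonneg_left hbz (by positivity)
  have a5 : D * Real.exp (L * z.re) ≤ Q * D * Real.exp (L * (z.re + 2 * δ)) := by
    calc D * Real.exp (L * z.re) ≤ D * Real.exp (L * (z.re + 2 * δ)) := mul_le_mul_of_nonneg_left hzz (by linarith)
      _ ≤ Q * (D * Real.exp (L * (z.re + 2 * δ))) := by
          have b8 : 0 ≤ D * Real.exp (L * (z.re + 2 * δ)) := by positivity
          have b9 := mul_le_mul_of_nonneg_right hQ1 b8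
          linarith
      _ = _ := by ring
  calc ‖Zk 0 z‖ ≤ 7 * Q * D * Real.exp (L * (z.re + 2 * δ)) := by linarith
    _ ≤ Real.exp (L * δ) * Real.exp (L * (z.re + 2 * δ)) :=
        mul_le_mul_of_nonneg_right n2 (Real.exp_pos _).le
    _ = Real.exp (L * (z.re + 3 * δ)) := by rw [← Real.exp_add]; ring_nf

set_option maxHeartbeats 1000000 in
theorem t_KL (h1 : S_ZA) (h2 : S_HM) (h3 : S_LZ) (h4 : S_LG) (h5 : S_TY) (h6 : S_MP) : S_KL := by
  intro k
  obtain ⟨h2a, CH, TH, hCH, hTH, _, h2c, _⟩ := h2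
  obtain ⟨C1, T1, hC1, hT1, hLZ⟩ := h3 k
  obtain ⟨C2, hC2, hLG⟩ := h4 k
  obtain ⟨C3, hC3, hMP⟩ := h6
  set K : ℝ := 4 * C3 with hK
  obtain ⟨c, hc0, hc⟩ := exp_dom (2 * C2) (K + 3) k (by linarith) (by linarith)
  obtain ⟨d, hd0, hd⟩ := exp_dom (7 * C2 * Real.exp 3) (K + 3) (2 * k) (by positivity) (by linarith)
  set C : ℝ := K + 4 + 8 * C1 + 16 * CH * (1 + K) + C3 * K + 4 * c + 2 * d with hC
  have hK4 : 4 ≤ K := by rw [hK]; linarith
  have q1 : 0 ≤ CH * (1 + K) := by positivity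
  have q2 : 0 ≤ C3 * K := by positivity
  refine ⟨C, 2 * (3 + T1 + TH + C3), by rw [hC]; linarith, by linarith, ?_⟩
  intro T θ δ hT hθ hθ4 hOk hNZ
  have hT3 : 3 ≤ T := by linarith
  have hC1' : 1 ≤ C := by rw [hC]; linarith
  have hL := one_le_log hT3
  have hLC := ok_L hC1' hT3 hOk
  have hEE := ee_bound hC1 (by rw [hC]; linarith : C1 ≤ C) hT3 hOk
  obtain ⟨hδ, hδ1, _⟩ := hOk
  set L := Real.log T with hLdef
  set W : ℝ := K / δ with hWdef
  have hδ2 : 0 < δ ^ 2 := by positivity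
  have hδ3 : 0 < δ ^ 3 := by positivity
  -- y = 1 / δ^2
  set y : ℝ := 1 / δ ^ 2 with hy
  have hy1 : 1 ≤ y := by
    rw [hy, le_div_iff₀ hδ2]; nlinarith
  have hLy : C * y ≤ L * δ := by
    have : C / δ ^ 3 * δ ≤ L * δ := mul_le_mul_of_nonneg_right hLC hδ.le
    have e : C / δ ^ 3 * δ = C * y := by rw [hy]; field_simp
    linarith
  have h1δ : 1 ≤ 1 / δ := by rw [le_div_iff₀ hδ]; linarith
  have hyδ : 1 / δ ≤ y := by
    rw [hy]
    apply div_le_div_of_nonneg_left (by norm_num) hδ2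
    nlinarith
  have hW4 : 4 ≤ W := by
    rw [hWdef, le_div_iff₀ hδ]; linarith
  have hWy : W ≤ K * y := by
    have : W = K * (1 / δ) := by rw [hWdef]; ring
    rw [this]
    exact mul_le_mul_of_nonneg_left hyδ (by linarith)
  have hWL : W ≤ L := by
    have e1 : K * y ≤ C * y := mul_le_mul_of_nonneg_right (by rw [hC]; linarith) (by linarith)
    have e2 : L * δ ≤ L * 1 := mul_le_mul_of_nonneg_left (by linarith) (by linarith)
    linarith
  have hWT : W ≤ T / 2 := hWL.trans (log_le_half (by linarith))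
  have hEE2 : 2 * (2 * EE C1 T δ) ≤ L * δ := by
    have e1 : C1 / C ≤ 1 / 8 := by
      rw [div_le_iff₀ (by linarith)]
      rw [hC]; linarith
    have e2 : 0 ≤ δ * L := by positivity
    have e3 : C1 / C * (δ * L) ≤ 1 / 8 * (δ * L) := mul_le_mul_of_nonneg_right e1 e2
    linarith
  have hEE0 : 0 ≤ EE C1 T δ := by
    unfold EE
    have : 0 ≤ Real.log T ^ (1 - δ / C1) := Real.rpow_nonneg (by linarith) _
    positivity
  have hWd : (W + 3) / δ ≤ (K + 3) * y := by
    rw [hWdef, hy, div_le_iff₀ hδ]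
    have : (K + 3) * (1 / δ ^ 2) * δ = K / δ + 3 * (1 / δ) := by
      field_simp
    rw [this]
    linarith
  have hWd0 : 0 ≤ (W + 3) / δ := by positivity
  have hW1y : W + 1 ≤ (K + 3) * y := by
    have : (K + 3) * y = K * y + 3 * y := by ring
    rw [this]; linarith
  refine core h1 k (CH := CH) (TH := TH) (C2 := C2) (C3 := C3) (W := W) (E1 := Real.exp (2 * EE C1 T δ + 3))
    (fun x x' T v a1 a2 a3 a4 a5 => (h2c x x' T v a1 a2 a3 a4 a5).1) (fun z hz => (h2a z hz).1)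
    hLG h5 hMP hCH hC2 hT3 (by linarith) (by linarith) (by linarith) hθ hθ4 hδ hδ1 hW4 (by linarith) ?_ ?_
    (Real.one_le_exp (by positivity)) ?_ ?_ ?_
  · -- C3 ≤ W
    rw [hWdef, le_div_iff₀ hδ, hK]
    have u1 : C3 * δ ≤ C3 * 1 := mul_le_mul_of_nonneg_left (by linarith) (by linarith)
    linarith
  · -- C3 * W ≤ log T
    have e1 : C3 * W ≤ C3 * (K * y) := mul_le_mul_of_nonneg_left hWy (by linarith)
    have e2 : C3 * K * y ≤ C * y := mul_le_mul_of_nonneg_right (by rw [hC]; linarith) (by linarith)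
    have e3 : L * δ ≤ L * 1 := mul_le_mul_of_nonneg_left (by linarith) (by linarith)
    have e4 : C3 * (K * y) = C3 * K * y := by ring
    linarith
  · -- the bound of Zk k
    intro z hz1 hz2 hz3
    have hz4 := abs_le.mp hz3
    have hzT : 3 ≤ z.im := by linarith
    have hlog := log_near hT3 hzT hWT hz3
    have hnz : NZ (Zk k) θ z.im 4 := by
      intro w hw1 hw2 hw3
      apply hNZ w hw1 hw2
      have e1 : |w.im - T| ≤ |w.im - z.im| + |z.im - T| := abs_sub_le _ _ _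
      have e2 : 4 + W ≤ C / δ := by
        have : 4 + W ≤ 4 * (1 / δ) + K * (1 / δ) := by
          have : W = K * (1 / δ) := by rw [hWdef]; ring
          linarith
        have e3 : 4 * (1 / δ) + K * (1 / δ) ≤ C * (1 / δ) := by
          rw [← add_mul]
          apply mul_le_mul_of_nonneg_right _ (by positivity)
          rw [hC]; linarith
        have e4 : C * (1 / δ) = C / δ := by ring
        linarith
      linarith
    obtain ⟨g1, g2, _⟩ := hLZ z.im θ δ (by linarith) hθ (by linarith) hδ hδ1 hnz z rfl hz1 (by linarith)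
    have g3 := (abs_le.mp g2).2
    have g4 := ee_near (C1 := C1) hC1 hδ (by linarith) hT3 hzT hlog
    have g5 : Real.log ‖Zk k z‖ ≤ 2 * EE C1 T δ + 3 + L * z.re := by
      have g6 : Real.log z.im * z.re ≤ (L + 1 / 2) * z.re := mul_le_mul_of_nonneg_right hlog (by linarith)
      have g7 : (L + 1 / 2) * z.re = L * z.re + z.re / 2 := by ring
      linarith
    calc ‖Zk k z‖ = Real.exp (Real.log ‖Zk k z‖) := (Real.exp_log (norm_pos_iff.mpr g1)).symm
      _ ≤ Real.exp (2 * EE C1 T δ + 3 + L * z.re) := Real.exp_le_exp.mpr g5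
      _ = _ := Real.exp_add _ _
  · -- n1
    have f1 : C3 * L / W ^ 2 ≤ L * δ / 16 := by
      have hWe : W ^ 2 = K ^ 2 / δ ^ 2 := by rw [hWdef, div_pow]
      rw [div_le_iff₀ (by positivity), hWe, hK]
      have e1 : L * δ / 16 * ((4 * C3) ^ 2 / δ ^ 2) = C3 * L * (C3 / δ) := by
        field_simp
        ring
      rw [e1]
      have e2 : 1 ≤ C3 / δ := by rw [le_div_iff₀ hδ]; linarith
      have e3 : 0 ≤ C3 * L := by positivity
      have e4 : C3 * L * 1 ≤ C3 * L * (C3 / δ) := mul_le_mul_of_nonneg_left e2 e3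
      linarith
    have f2 : CH * (1 + W) ≤ L * δ / 16 := by
      have e1 : 1 + W ≤ (1 + K) * y := by
        have : (1 + K) * y = y + K * y := by ring
        rw [this]; linarith
      have e2 : CH * (1 + W) ≤ CH * ((1 + K) * y) := mul_le_mul_of_nonneg_left e1 (by linarith)
      have e3 : 16 * CH * (1 + K) * y ≤ C * y := mul_le_mul_of_nonneg_right (by rw [hC]; linarith) (by linarith)
      have e4 : 16 * (CH * ((1 + K) * y)) = 16 * CH * (1 + K) * y := by ring
      linarith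
    have f3 : 2 * (C2 * ((W + 3) / δ) ^ k) ≤ Real.exp (L * δ / 4) := by
      calc 2 * (C2 * ((W + 3) / δ) ^ k) = 2 * C2 * ((W + 3) / δ) ^ k := by ring
        _ ≤ 2 * C2 * ((K + 3) * y) ^ k :=
            mul_le_mul_of_nonneg_left (pow_le_pow_left₀ hWd0 hWd k) (by linarith)
        _ ≤ Real.exp (c * y) := hc y hy1
        _ ≤ Real.exp (L * δ / 4) := by
            apply Real.exp_le_exp.mpr
            have e3 : 4 * c * y ≤ C * y := mul_le_mul_of_nonneg_right (by rw [hC]; linarith) (by linarith)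
            linarith
    calc 2 * (C2 * ((W + 3) / δ) ^ k) * Real.exp (C3 * L / W ^ 2 + CH * (1 + W) - L * δ / 2)
        ≤ Real.exp (L * δ / 4) * Real.exp (-(L * δ / 4)) := by
          apply mul_le_mul f3 _ (Real.exp_pos _).le (Real.exp_pos _).le
          apply Real.exp_le_exp.mpr
          have : 0 ≤ L * δ := by positivity
          linarith
      _ = 1 := by rw [← Real.exp_add]; simp
  · -- n2
    have hpow : ((W + 3) / δ) ^ k * (W + 1) ^ k ≤ ((K + 3) * y) ^ (2 * k) := by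
      have e1 : ((W + 3) / δ) ^ k ≤ ((K + 3) * y) ^ k := pow_le_pow_left₀ hWd0 hWd k
      have e2 : (W + 1) ^ k ≤ ((K + 3) * y) ^ k := pow_le_pow_left₀ (by linarith) hW1y k
      calc ((W + 3) / δ) ^ k * (W + 1) ^ k ≤ ((K + 3) * y) ^ k * ((K + 3) * y) ^ k :=
            mul_le_mul e1 e2 (by positivity) (by positivity)
        _ = ((K + 3) * y) ^ (2 * k) := by rw [← pow_add]; ring_nf
    have hdy : d * y ≤ L * δ / 2 := by
      have e3 : 2 * d * y ≤ C * y := mul_le_mul_of_nonneg_right (by rw [hC]; linarith) (by linarith)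
      linarith
    calc 7 * (C2 * ((W + 3) / δ) ^ k) * ((W + 1) ^ k * Real.exp (2 * EE C1 T δ + 3))
        = 7 * C2 * Real.exp 3 * (((W + 3) / δ) ^ k * (W + 1) ^ k) * Real.exp (2 * EE C1 T δ) := by
          rw [Real.exp_add]; ring
      _ ≤ 7 * C2 * Real.exp 3 * ((K + 3) * y) ^ (2 * k) * Real.exp (2 * EE C1 T δ) := by
          apply mul_le_mul_of_nonneg_right _ (Real.exp_pos _).le
          apply mul_le_mul_of_nonneg_left hpow (by positivity)
      _ ≤ Real.exp (d * y) * Real.exp (2 * EE C1 T δ) :=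
          mul_le_mul_of_nonneg_right (hd y hy1) (Real.exp_pos _).le
      _ = Real.exp (d * y + 2 * EE C1 T δ) := (Real.exp_add _ _).symm
      _ ≤ Real.exp (L * δ) := by
          apply Real.exp_le_exp.mpr
          linarith

end Pool.Agent.Q234.SL
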